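import Mathlib
import Pool.Agent.FXC.SMH
import Pool.Agent.Lib_helper10.Erdos460.BHG

set_option autoImplicit false

/-!
The mean of `g` over the integers without prime factors in a set `P`.
-/

namespace Pool.Agent.FXD

open Finset Filter Pool.Agent.UNI Pool.Agent.FXC Pool.Agent.Lib_helper10.Erdos460
open Pool.Agent.Lib_helper10.Erdos460.BHG

noncomputable section

lemma sum_divisors_div_le (n : ℕ) :
    ∑ e ∈ Icc 1 n, (e.divisors.card : ℝ) / (e : ℝ) ≤ (1 + Real.log n) ^ 2 := by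
  classical
  have h1 : ∀ e ∈ Icc 1 n, (e.divisors.card : ℝ) / (e : ℝ) =
      ∑ x ∈ (Icc 1 n ×ˢ Icc 1 n).filter (fun x => x.1 * x.2 = e),
        (1 / (x.1 : ℝ)) * (1 / (x.2 : ℝ)) := by
    intro e he
    rw [mem_Icc] at he
    have h2 : ∀ x ∈ (Icc 1 n ×ˢ Icc 1 n).filter (fun x => x.1 * x.2 = e),
        (1 / (x.1 : ℝ)) * (1 / (x.2 : ℝ)) = 1 / (e : ℝ) := by
      intro x hx
      rw [mem_filter] at hx
      rw [← hx.2]
      push_cast
      rw [one_div_mul_one_div]
    rw [Finset.sum_congr rfl h2, Finset.sum_const, nsmul_eq_mul]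
    have h3 : ((Icc 1 n ×ˢ Icc 1 n).filter (fun x => x.1 * x.2 = e)).card = e.divisors.card := by
      apply Finset.card_bij (fun x _ => x.1)
      · intro x hx
        rw [mem_filter] at hx
        rw [Nat.mem_divisors]
        exact ⟨⟨x.2, hx.2.symm⟩, by omega⟩
      · intro x hx y hy hxy
        rw [mem_filter, mem_product, mem_Icc, mem_Icc] at hx hy
        have h4 : x.1 * x.2 = x.1 * y.2 := by
          rw [hx.2, hxy, hy.2]
        have h5 := Nat.eq_of_mul_eq_mul_left (by omega) h4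
        exact Prod.ext hxy h5
      · intro a ha
        rw [Nat.mem_divisors] at ha
        obtain ⟨⟨b, hb⟩, he0⟩ := ha
        have ha0 : 0 < a := by
          rcases Nat.eq_zero_or_pos a with h | h
          · rw [h, zero_mul] at hb
            omega
          · exact h
        have hb0 : 0 < b := by
          rcases Nat.eq_zero_or_pos b with h | h
          · rw [h, mul_zero] at hb
            omega
          · exact h
        have ha1 : a ≤ e := by rw [hb]; exact Nat.le_mul_of_pos_right a hb0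
        have hb1 : b ≤ e := by rw [hb]; exact Nat.le_mul_of_pos_left b ha0
        refine ⟨(a, b), ?_, rfl⟩
        rw [mem_filter, mem_product, mem_Icc, mem_Icc]
        exact ⟨⟨⟨ha0, ha1.trans he.2⟩, ⟨hb0, hb1.trans he.2⟩⟩, hb.symm⟩
    rw [h3]
    ring
  rw [Finset.sum_congr rfl h1]
  have h2 : ∑ e ∈ Icc 1 n, ∑ x ∈ (Icc 1 n ×ˢ Icc 1 n).filter (fun x => x.1 * x.2 = e),
        (1 / (x.1 : ℝ)) * (1 / (x.2 : ℝ)) ≤
      ∑ x ∈ Icc 1 n ×ˢ Icc 1 n, (1 / (x.1 : ℝ)) * (1 / (x.2 : ℝ)) := by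
    rw [← Finset.sum_biUnion]
    · apply Finset.sum_le_sum_of_subset_of_nonneg
      · intro x hx
        rw [mem_biUnion] at hx
        obtain ⟨e, _, hx⟩ := hx
        exact (mem_filter.1 hx).1
      · intro x _ _
        positivity
    · intro a _ b _ hab
      rw [Function.onFun, Finset.disjoint_left]
      intro x hx hx'
      rw [mem_filter] at hx hx'
      exact hab (hx.2.symm.trans hx'.2)
  refine h2.trans ?_
  rw [Finset.sum_product]
  simp only []
  rw [← Finset.sum_mul_sum]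
  have h3 : ∑ a ∈ Icc 1 n, (1 : ℝ) / (a : ℝ) ≤ 1 + Real.log n := by
    have h5 := harmonic_le_one_add_log n
    rw [harmonic_eq_sum_Icc] at h5
    push_cast at h5
    simpa [one_div] using h5
  have h4 : 0 ≤ ∑ a ∈ Icc 1 n, (1 : ℝ) / (a : ℝ) := Finset.sum_nonneg fun _ _ => by positivity
  rw [← sq]
  exact pow_le_pow_left₀ h4 h3 2


/-- the number of multiples of `e` and of the primes of `T` -/
lemma count_mul {P T : Finset ℕ} (hP : ∀ q ∈ P, q.Prime) (hT : T ⊆ P) {e : ℕ} (he : 0 < e)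
    (hes : ∀ q ∈ P, ¬ q ∣ e) (K : ℕ) :
    ((Icc 1 K).filter (fun k => e ∣ k ∧ T ⊆ P.filter (fun q => q ∣ k))).card =
      K / (e * ∏ q ∈ T, q) := by
  have h1 : (Icc 1 K).filter (fun k => e ∣ k ∧ T ⊆ P.filter (fun q => q ∣ k)) =
      (Ioc 0 K).filter (fun k => e * ∏ q ∈ T, q ∣ k) := by
    ext k
    rw [mem_filter, mem_filter, mem_Icc, mem_Ioc]
    refine and_congr (by omega) ?_
    have hcop : Nat.Coprime e (∏ q ∈ T, q) := by
      apply Nat.Coprime.prod_right
      intro q hq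
      rw [Nat.coprime_comm]
      exact (Nat.Prime.coprime_iff_not_dvd (hP q (hT hq))).2 (hes q (hT hq))
    constructor
    · rintro ⟨h2, h3⟩
      apply hcop.mul_dvd_of_dvd_of_dvd h2
      apply Finset.prod_primes_dvd
      · intro q hq
        exact (hP q (hT hq)).prime
      · intro q hq
        exact (mem_filter.1 (h3 hq)).2
    · intro h2
      refine ⟨(dvd_mul_right _ _).trans h2, fun q hq => mem_filter.2 ⟨hT hq, ?_⟩⟩
      exact ((Finset.dvd_prod_of_mem (fun q => q) hq).trans (dvd_mul_left _ _)).trans h2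
  rw [h1, Nat.Ioc_filter_dvd_card_eq_div]

/-- the number of the sets of a given level -/
lemma card_level {P : Finset ℕ} (hP : ∀ q ∈ P, q.Prime) (w : Finset ℕ → ℝ) (N : ℕ)
    (hw : ∀ T ⊆ P, w T ≠ 0 → ∏ q ∈ T, q ≤ N) :
    ((P.powerset.filter (fun T => w T ≠ 0)).card : ℝ) ≤ N := by
  have h1 : (P.powerset.filter (fun T => w T ≠ 0)).card ≤ (Icc 1 N).card := by
    apply card_le_card_of_injOn (fun T => ∏ q ∈ T, q)
    · intro T hT
      rw [mem_coe, mem_filter, mem_powerset] at hT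
      rw [mem_coe, mem_Icc]
      exact ⟨Finset.prod_pos fun q hq => (hP q (hT.1 hq)).pos, hw T hT.1 hT.2⟩
    · intro T hT T' hT' h
      have hT := (mem_powerset.1 (mem_filter.1 (mem_coe.1 hT)).1)
      have hT' := (mem_powerset.1 (mem_filter.1 (mem_coe.1 hT')).1)
      dsimp only at h
      have e1 := Nat.primeFactors_prod (s := T) (fun q hq => hP q (hT hq))
      have e2 := Nat.primeFactors_prod (s := T') (fun q hq => hP q (hT' hq))
      rw [← e1, ← e2, h]
  rw [Nat.card_Icc] at h1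
  exact_mod_cast h1

/-- one divisor -/
lemma one_div_sum {P : Finset ℕ} {z s : ℕ} {τ : ℝ} {Up Low : Finset ℕ → ℝ}
    (hW : SWP P z s τ Up Low) (hP : ∀ q ∈ P, q.Prime) (hτ : τ ≤ 1) (K e : ℕ) (he : 0 < e)
    (hes : ∀ q ∈ P, ¬ q ∣ e) :
    ∑ k ∈ (Icc 1 K).filter (fun k => e ∣ k), subsum Up (P.filter (fun q => q ∣ k)) ≤
      2 * (K / e * VP P) + (z ^ s : ℕ) := by
  classical
  have h1 : ∀ k, subsum Up (P.filter (fun q => q ∣ k)) =
      ∑ T ∈ P.powerset, if T ⊆ P.filter (fun q => q ∣ k) then Up T else 0 := by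
    intro k
    rw [← Finset.sum_filter]
    unfold subsum
    apply Finset.sum_congr _ fun _ _ => rfl
    ext T
    rw [mem_filter, mem_powerset, mem_powerset]
    constructor
    · intro h
      exact ⟨h.trans (filter_subset _ _), h⟩
    · exact fun h => h.2
  have h2 : ∑ k ∈ (Icc 1 K).filter (fun k => e ∣ k), subsum Up (P.filter (fun q => q ∣ k)) =
      ∑ T ∈ P.powerset, Up T * ((K / (e * ∏ q ∈ T, q) : ℕ) : ℝ) := by
    rw [Finset.sum_congr rfl fun k _ => h1 k, Finset.sum_comm]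
    apply Finset.sum_congr rfl
    intro T hT
    rw [← Finset.sum_filter, Finset.filter_filter, Finset.sum_const, nsmul_eq_mul,
      count_mul hP (mem_powerset.1 hT) he hes K]
    ring
  rw [h2]
  have he0 : (0 : ℝ) < e := by exact_mod_cast he
  have h3 : ∀ T ∈ P.powerset, Up T * ((K / (e * ∏ q ∈ T, q) : ℕ) : ℝ) ≤
      (K / e : ℝ) * (Up T * ∏ q ∈ T, (1 / (q : ℝ))) + (if Up T ≠ 0 then 1 else 0) := by
    intro T hT
    have hTP := mem_powerset.1 hT
    have hprod : (0 : ℝ) < ∏ q ∈ T, (q : ℝ) :=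
      Finset.prod_pos fun q hq => by exact_mod_cast (hP q (hTP hq)).pos
    have hX : (K / e : ℝ) * (Up T * ∏ q ∈ T, (1 / (q : ℝ))) =
        Up T * ((K : ℝ) / (e * ∏ q ∈ T, (q : ℝ))) := by
      rw [Finset.prod_div_distrib, Finset.prod_const_one]
      field_simp
    rw [hX]
    have hY1 : ((K / (e * ∏ q ∈ T, q) : ℕ) : ℝ) ≤ (K : ℝ) / (e * ∏ q ∈ T, (q : ℝ)) := by
      have := Nat.cast_div_le (α := ℝ) (m := K) (n := e * ∏ q ∈ T, q)
      push_cast at this
      exact this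
    have hY2 : (K : ℝ) / (e * ∏ q ∈ T, (q : ℝ)) - 1 ≤ ((K / (e * ∏ q ∈ T, q) : ℕ) : ℝ) := by
      have := Nat.lt_floor_add_one ((K : ℝ) / ((e * ∏ q ∈ T, q : ℕ) : ℝ))
      rw [Nat.floor_div_eq_div] at this
      push_cast at this
      push_cast
      linarith
    have habs := abs_le.1 (hW.up_abs T)
    split_ifs with h0
    · rcases le_total 0 (Up T) with h4 | h4
      · have := mul_le_mul_of_nonneg_left hY1 h4
        linarith
      · have h5 := mul_le_mul_of_nonpos_left hY2 h4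
        nlinarith
    · rw [not_not] at h0
      rw [h0]
      simp
  refine (Finset.sum_le_sum h3).trans ?_
  rw [Finset.sum_add_distrib, ← Finset.mul_sum, ← Finset.sum_filter, Finset.sum_const,
    nsmul_eq_mul, mul_one]
  have h4 := card_level hP Up (z ^ s) hW.up_level
  have h5 : (K / e : ℝ) * meanw Up P ≤ 2 * (K / e * VP P) := by
    have h6 := hW.up_mean
    have h7 := VP_pos P hP
    have h8 : meanw Up P ≤ 2 * VP P := by nlinarith
    have h9 : (0 : ℝ) ≤ K / e := by positivity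
    nlinarith
  unfold meanw at h5
  linarith

/-- the sieve bound -/
lemma sieve_core {P : Finset ℕ} {z s : ℕ} {τ : ℝ} {Up Low : Finset ℕ → ℝ}
    (hW : SWP P z s τ Up Low) (hP : ∀ q ∈ P, q.Prime) (hτ : τ ≤ 1) (K : ℕ) (Q : Finset ℕ)
    (hQ : ∀ l ∈ Q, l.Prime) :
    ∑ k ∈ (Icc 1 K).filter (fun k => ∀ l ∈ P, ¬ l ∣ k), gI Q (k : ℤ) ≤
      8 * (K * VP P) + (z ^ s : ℕ) * (1 + Real.log K) ^ 2 := by
  classical
  have hVP := VP_pos P hP
  have h1 : ∀ k ∈ (Icc 1 K).filter (fun k => ∀ l ∈ P, ¬ l ∣ k), gI Q (k : ℤ) ≤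
      ∑ e ∈ Icc 1 K, if e ∣ k ∧ ∀ l ∈ P, ¬ l ∣ e then
        (e.divisors.card : ℝ) / e * subsum Up (P.filter (fun q => q ∣ k)) else 0 := by
    intro k hk
    rw [mem_filter, mem_Icc] at hk
    obtain ⟨⟨hk1, hk2⟩, hk3⟩ := hk
    refine (smh_le Q hQ k hk1).trans ?_
    rw [← Finset.sum_filter]
    have h2 : k.divisors = (Icc 1 K).filter (fun e => e ∣ k ∧ ∀ l ∈ P, ¬ l ∣ e) := by
      ext e
      rw [Nat.mem_divisors, mem_filter, mem_Icc]
      constructor
      · rintro ⟨h2, h3⟩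
        exact ⟨⟨Nat.pos_of_dvd_of_pos h2 hk1, (Nat.le_of_dvd hk1 h2).trans hk2⟩, h2,
          fun l hl h4 => hk3 l hl (h4.trans h2)⟩
      · rintro ⟨_, h2, _⟩
        exact ⟨h2, by omega⟩
    rw [h2]
    apply Finset.sum_le_sum
    intro e _
    have h3 : P.filter (fun q => q ∣ k) = ∅ := by
      rw [Finset.filter_eq_empty_iff]
      exact fun l hl => hk3 l hl
    have h4 := hW.up ∅ (empty_subset _)
    have h5 : ind0 ∅ = 1 := by simp [ind0]
    rw [h3]
    rw [h5] at h4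
    exact le_mul_of_one_le_right (by positivity) h4
  have h6 : ∀ k ∈ Icc 1 K, 0 ≤ ∑ e ∈ Icc 1 K, if e ∣ k ∧ ∀ l ∈ P, ¬ l ∣ e then
        (e.divisors.card : ℝ) / e * subsum Up (P.filter (fun q => q ∣ k)) else 0 := by
    intro k _
    apply Finset.sum_nonneg
    intro e _
    split_ifs
    · exact mul_nonneg (by positivity) ((ind0_nonneg _).trans (hW.up _ (filter_subset _ _)))
    · exact le_rfl
  have h7 := (Finset.sum_le_sum h1).trans
    (Finset.sum_le_sum_of_subset_of_nonneg (filter_subset _ _) fun k hk _ => h6 k hk)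
  refine h7.trans ?_
  rw [Finset.sum_comm]
  have h8 : ∀ e ∈ Icc 1 K, (∑ k ∈ Icc 1 K, if e ∣ k ∧ ∀ l ∈ P, ¬ l ∣ e then
        (e.divisors.card : ℝ) / e * subsum Up (P.filter (fun q => q ∣ k)) else 0) ≤
      2 * K * VP P * ((e.divisors.card : ℝ) / (e : ℝ) ^ 2) +
        (z ^ s : ℕ) * ((e.divisors.card : ℝ) / e) := by
    intro e he
    rw [mem_Icc] at he
    have he0 : (0 : ℝ) < e := by exact_mod_cast he.1
    by_cases hes : ∀ l ∈ P, ¬ l ∣ e
    · have h9 : ∀ k, (e ∣ k ∧ ∀ l ∈ P, ¬ l ∣ e) ↔ e ∣ k := fun k => ⟨fun h => h.1, fun h => ⟨h, hes⟩⟩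
      simp only [h9]
      rw [← Finset.sum_filter, ← Finset.mul_sum]
      have h10 := one_div_sum hW hP hτ K e he.1 hes
      have h11 : (0 : ℝ) ≤ (e.divisors.card : ℝ) / e := by positivity
      refine (mul_le_mul_of_nonneg_left h10 h11).trans (le_of_eq ?_)
      field_simp
    · have h9 : ∀ k, ¬ (e ∣ k ∧ ∀ l ∈ P, ¬ l ∣ e) := fun k h => hes h.2
      simp only [h9, if_false, Finset.sum_const_zero]
      positivity
  refine (Finset.sum_le_sum h8).trans ?_
  rw [Finset.sum_add_distrib, ← Finset.mul_sum, ← Finset.mul_sum]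
  have h9 := sum_divisors_div_sq_le K
  have h10 := sum_divisors_div_le K
  have h11 : 2 * K * VP P * ∑ e ∈ Icc 1 K, (e.divisors.card : ℝ) / (e : ℝ) ^ 2 ≤
      2 * K * VP P * 4 := mul_le_mul_of_nonneg_left h9 (by positivity)
  have h12 : ((z ^ s : ℕ) : ℝ) * ∑ e ∈ Icc 1 K, (e.divisors.card : ℝ) / (e : ℝ) ≤
      (z ^ s : ℕ) * (1 + Real.log K) ^ 2 := mul_le_mul_of_nonneg_left h10 (by positivity)
  linarith

end

end Pool.Agent.FXD
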