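import Mathlib
import Pool.Agent.FXD.SieA
import Pool.Agent.Lib_helper9.LG.KVBd

set_option autoImplicit false

/-!
The mean of `g` over the integers up to `K` without prime factors in a set `P` of primes at most
`sqrt K`.
-/

namespace Pool.Agent.FXD

open Finset Filter Pool.Agent.UNI Pool.Agent.FXC Pool.Agent.Lib_helper10.Erdos460
open Pool.Agent.Lib_helper10.Erdos460.BHG
open Pool.Agent.Lib_helper9.LG.KVBd

noncomputable section

lemma gI_nonneg (Q : Finset ℕ) (hQ : ∀ l ∈ Q, l.Prime) (n : ℤ) : 0 ≤ gI Q n := by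
  unfold gI
  apply Finset.prod_nonneg
  intro l hl
  have h1 : (1 : ℝ) < l := by exact_mod_cast (hQ l (mem_filter.1 hl).1).one_lt
  exact div_nonneg (by linarith) (by linarith)

lemma ff_prod_pos {P : Finset ℕ} (hP : ∀ l ∈ P, l.Prime) : 0 < ∏ l ∈ P, ff l :=
  Finset.prod_pos fun l hl => (ff_pos (hP l hl)).1

/-- the large primes cost a constant -/
lemma large_primes {c C : ℝ} (hc : 0 < c) (hC : 0 < C)
    (hM : ∀ z : ℝ, 4 ≤ z → c / Real.log z ≤ ∏ p ∈ pz z, ff p ∧ ∏ p ∈ pz z, ff p ≤ C / Real.log z)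
    {X Y : ℝ} {r : ℝ} (hX : 16 ≤ X) (hXY : X ≤ Y) (hr : Real.log Y ≤ r * Real.log X) :
    c / (2 * r * C) ≤ ∏ p ∈ pyz (X / 2) Y, ff p := by
  have h1 := prod_pyz (y := X / 2) (z := Y) (by linarith) (by linarith)
  have h2 := (hM (X / 2) (by linarith)).2
  have h3 := (hM Y (by linarith)).1
  rw [← h1] at h3
  have hlX : 0 < Real.log X := Real.log_pos (by linarith)
  have hlY : 0 < Real.log Y := Real.log_pos (by linarith)
  have hlX2 : Real.log X / 2 ≤ Real.log (X / 2) := by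
    have e1 : Real.sqrt X ≤ X / 2 := by
      rw [Real.sqrt_le_left (by linarith)]
      nlinarith
    have e2 := Real.log_le_log (Real.sqrt_pos.2 (by linarith)) e1
    rwa [Real.log_sqrt (by linarith)] at e2
  have hr0 : 0 < r := by
    by_contra hcon
    push Not at hcon
    have : r * Real.log X ≤ 0 := mul_nonpos_of_nonpos_of_nonneg hcon hlX.le
    linarith
  have hP0 : 0 ≤ ∏ p ∈ pyz (X / 2) Y, ff p :=
    Finset.prod_nonneg fun p hp => (ff_pos (mem_filter.1 hp).2.1).1.le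
  have h4 : c / Real.log Y ≤ C / (Real.log X / 2) * ∏ p ∈ pyz (X / 2) Y, ff p := by
    refine h3.trans (mul_le_mul_of_nonneg_right (h2.trans ?_) hP0)
    exact div_le_div_of_nonneg_left hC.le (by linarith) hlX2
  have h5 : c / (r * Real.log X) ≤ c / Real.log Y :=
    div_le_div_of_nonneg_left hc.le hlY hr
  have h6 := h5.trans h4
  rw [div_le_iff₀ (by positivity)]
  rw [div_le_iff₀ (by positivity)] at h6
  have h7 : C / (Real.log X / 2) * (∏ p ∈ pyz (X / 2) Y, ff p) * (r * Real.log X) =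
      (∏ p ∈ pyz (X / 2) Y, ff p) * (2 * r * C) := by
    field_simp
  linarith

theorem sie : ∃ C : ℝ, 1 ≤ C ∧ ∀ (K : ℕ) (P Q : Finset ℕ), (∀ l ∈ P, l.Prime ∧ l ^ 2 ≤ K) →
    (∀ l ∈ Q, l.Prime) →
    ∑ k ∈ (Icc 1 K).filter (fun k => ∀ l ∈ P, ¬ l ∣ k), gI Q (k : ℤ) ≤
      C * (K * ∏ l ∈ P, ff l) := by
  classical
  obtain ⟨C₁, hC₁, Θ, -, hΘ, hbhg⟩ := bhg
  obtain ⟨c, C₂, hc, hC₂, hM⟩ := mert
  obtain ⟨b, hb⟩ : ∃ b : ℕ, b = ⌈2 * C₁⌉₊ := ⟨_, rfl⟩
  have hΘb : 2 * Θ b ≤ 1 := by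
    have h1 := hΘ b
    have h2 : 2 * C₁ ≤ b := by
      rw [hb]
      exact Nat.le_ceil _
    have h3 : (b : ℝ) + 1 ≤ ((b : ℝ) + 1) ^ 8 := le_self_pow₀ (by
      have : (0 : ℝ) ≤ b := Nat.cast_nonneg b
      linarith) (by norm_num)
    have h4 : C₁ / ((b : ℝ) + 1) ^ 8 ≤ 1 / 2 := by
      rw [div_le_iff₀ (by positivity)]
      linarith
    linarith
  obtain ⟨s, hs⟩ : ∃ s : ℕ, s = 4 * b + 6 := ⟨_, rfl⟩
  have hs1 : 1 ≤ s := by omega
  have hs0 : (0 : ℝ) < s := by exact_mod_cast (by omega : 0 < s)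
  -- the range of `K`
  have hev : ∀ᶠ x : ℝ in atTop, 64 / c * Real.log x ^ 3 ≤ x := ev_real (64 / c) 3
  have hev2 : ∀ᶠ x : ℝ in atTop, 64 / c * Real.log (Real.sqrt x) ^ 3 ≤ Real.sqrt x :=
    Real.tendsto_sqrt_atTop.eventually hev
  obtain ⟨K₁, hK₁⟩ := (hev2.and (eventually_ge_atTop ((16 : ℝ) ^ (4 * (s : ℝ))))).exists_forall_of_atTop
  obtain ⟨K₀, hK₀⟩ : ∃ K₀ : ℕ, K₀ = ⌈K₁⌉₊ + 16 := ⟨_, rfl⟩
  obtain ⟨c₀, hc₀⟩ : ∃ c₀ : ℝ, c₀ = ∏ p ∈ pz K₀, ff p := ⟨_, rfl⟩
  have hpzp : ∀ z : ℝ, ∀ p ∈ pz z, p.Prime := fun z p hp => (mem_filter.1 hp).2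
  have hc₀0 : 0 < c₀ := by
    rw [hc₀]
    exact ff_prod_pos (hpzp _)
  refine ⟨max 1 (max (4 / c₀) (9 * (8 * s * C₂ / c))), le_max_left _ _, fun K P Q hP hQ => ?_⟩
  have hPp : ∀ l ∈ P, l.Prime := fun l hl => (hP l hl).1
  have hPpos := ff_prod_pos hPp
  have hKP : 0 ≤ (K : ℝ) * ∏ l ∈ P, ff l := by positivity
  rcases Nat.lt_or_ge K K₀ with hK | hK
  · -- small `K`
    have h1 : ∑ k ∈ (Icc 1 K).filter (fun k => ∀ l ∈ P, ¬ l ∣ k), gI Q (k : ℤ) ≤
        ∑ k ∈ Icc 1 K, gI Q (k : ℤ) :=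
      Finset.sum_le_sum_of_subset_of_nonneg (filter_subset _ _) fun k _ _ => gI_nonneg Q hQ _
    have h2 := t_SMH Q hQ K
    have h3 : c₀ ≤ ∏ l ∈ P, ff l := by
      rw [hc₀]
      apply prod_subset_le _ (hpzp _)
      intro l hl
      obtain ⟨h4, h5⟩ := hP l hl
      unfold pz
      rw [mem_filter, mem_Icc, Nat.floor_natCast]
      have h6 : l ≤ l ^ 2 := Nat.le_self_pow (by norm_num) l
      exact ⟨⟨h4.one_lt.le, by omega⟩, h4⟩
    have h4 : 4 * (K : ℝ) ≤ 4 / c₀ * (K * ∏ l ∈ P, ff l) := by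
      have h5 : 4 / c₀ * ((K : ℝ) * c₀) ≤ 4 / c₀ * (K * ∏ l ∈ P, ff l) := by gcongr
      have h6 : 4 / c₀ * ((K : ℝ) * c₀) = 4 * K := by
        field_simp
      linarith
    refine (h1.trans h2).trans (h4.trans (mul_le_mul_of_nonneg_right ?_ hKP))
    exact (le_max_left _ _).trans (le_max_right _ _)
  · -- large `K`
    have hKr : K₁ ≤ K := by
      have h1 : K₁ ≤ (⌈K₁⌉₊ : ℝ) := Nat.le_ceil _
      have h2 : ((⌈K₁⌉₊ + 16 : ℕ) : ℝ) ≤ K := by exact_mod_cast (hK₀ ▸ hK)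
      push_cast at h2
      linarith
    obtain ⟨hk1, hk2⟩ := hK₁ K hKr
    have hK16 : (16 : ℝ) ≤ K := by
      have h2 : ((⌈K₁⌉₊ + 16 : ℕ) : ℝ) ≤ K := by exact_mod_cast (hK₀ ▸ hK)
      push_cast at h2
      have h3 : (0 : ℝ) ≤ (⌈K₁⌉₊ : ℝ) := Nat.cast_nonneg _
      linarith
    have hKpos : (0 : ℝ) < K := by linarith
    have hlK : 0 < Real.log K := Real.log_pos (by linarith)
    have hlK1 : 1 ≤ Real.log K := by
      have h1 : Real.exp 1 ≤ K := by
        have := Real.exp_one_lt_d9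
        linarith
      have h2 := Real.log_le_log (Real.exp_pos 1) h1
      rwa [Real.log_exp] at h2
    obtain ⟨X, hX⟩ : ∃ X : ℝ, X = (K : ℝ) ^ (1 / (4 * (s : ℝ))) := ⟨_, rfl⟩
    have hX16 : 16 ≤ X := by
      rw [hX]
      have h1 : ((16 : ℝ) ^ (4 * (s : ℝ))) ^ (1 / (4 * (s : ℝ))) ≤ (K : ℝ) ^ (1 / (4 * (s : ℝ))) :=
        Real.rpow_le_rpow (by positivity) hk2 (by positivity)
      rwa [← Real.rpow_mul (by norm_num), mul_one_div_cancel (by positivity), Real.rpow_one] at h1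
    have hlX : Real.log X = Real.log K / (4 * s) := by
      rw [hX, Real.log_rpow hKpos]
      ring
    have hXs : X ^ s = (K : ℝ) ^ (1 / 4 : ℝ) := by
      rw [hX, ← Real.rpow_natCast, ← Real.rpow_mul hKpos.le]
      congr 1
      field_simp
    obtain ⟨z, hz⟩ : ∃ z : ℕ, z = ⌊X⌋₊ := ⟨_, rfl⟩
    have hzX : (z : ℝ) ≤ X := by
      rw [hz]
      exact Nat.floor_le (by linarith)
    have hz1 : 1 ≤ z := by
      rw [hz]
      exact Nat.le_floor (by push_cast; linarith)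
    set P' := P.filter (fun l => l < z) with hP'
    have hP'p : ∀ l ∈ P', l.Prime := fun l hl => hPp l (mem_filter.1 hl).1
    obtain ⟨Up, Low, hW⟩ := hbhg b hΘb z hz1 P' (by
      intro l hl
      rw [Nat.mem_primesBelow]
      exact ⟨(mem_filter.1 hl).2, hP'p l hl⟩)
    have h1 := sieve_core hW hP'p hΘb K Q hQ
    rw [← hs] at h1
    have h0 : ∑ k ∈ (Icc 1 K).filter (fun k => ∀ l ∈ P, ¬ l ∣ k), gI Q (k : ℤ) ≤
        ∑ k ∈ (Icc 1 K).filter (fun k => ∀ l ∈ P', ¬ l ∣ k), gI Q (k : ℤ) := by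
      apply Finset.sum_le_sum_of_subset_of_nonneg
      · intro k hk
        rw [mem_filter] at hk ⊢
        exact ⟨hk.1, fun l hl => hk.2 l (mem_filter.1 hl).1⟩
      · intro k _ _
        exact gI_nonneg Q hQ _
    have hVP : VP P' = ∏ l ∈ P', ff l := rfl
    have hVPlow : c / Real.log K ≤ VP P' := by
      have h2 := (hM X (by linarith)).1
      have h3 : ∏ p ∈ pz X, ff p ≤ VP P' := by
        rw [hVP]
        apply prod_subset_le _ (hpzp _)
        intro l hl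
        unfold pz
        rw [mem_filter, mem_Icc]
        refine ⟨⟨(hP'p l hl).one_lt.le, ?_⟩, hP'p l hl⟩
        rw [← hz]
        exact (mem_filter.1 hl).2.le
      refine le_trans ?_ (h2.trans h3)
      apply div_le_div_of_nonneg_left hc.le (Real.log_pos (by linarith))
      rw [hlX]
      apply div_le_self hlK.le
      have : (1 : ℝ) ≤ s := by exact_mod_cast hs1
      linarith
    have herr : ((z ^ s : ℕ) : ℝ) * (1 + Real.log K) ^ 2 ≤ K * VP P' := by
      have h2 : ((z ^ s : ℕ) : ℝ) ≤ (K : ℝ) ^ (1 / 4 : ℝ) := by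
        push_cast
        rw [← hXs]
        exact pow_le_pow_left₀ (Nat.cast_nonneg z) hzX s
      have h3 : (K : ℝ) ^ (1 / 4 : ℝ) ≤ Real.sqrt K := by
        rw [Real.sqrt_eq_rpow]
        exact Real.rpow_le_rpow_of_exponent_le (by linarith) (by norm_num)
      have h4 : (1 + Real.log K) ^ 2 ≤ (2 * Real.log K) ^ 2 :=
        pow_le_pow_left₀ (by linarith) (by linarith) 2
      have h5 : (1 + Real.log K) ^ 2 * Real.log K ≤ c * Real.sqrt K := by
        rw [Real.log_sqrt hKpos.le] at hk1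
        have h6 : 64 / c * (Real.log K / 2) ^ 3 = (8 * Real.log K ^ 3) / c := by ring
        rw [h6, div_le_iff₀ hc] at hk1
        have h7 : (1 + Real.log K) ^ 2 * Real.log K ≤ (2 * Real.log K) ^ 2 * Real.log K :=
          mul_le_mul_of_nonneg_right h4 hlK.le
        have h8 : 0 ≤ Real.log K ^ 3 := by positivity
        have h9 : (2 * Real.log K) ^ 2 * Real.log K = 4 * Real.log K ^ 3 := by ring
        linarith
      have h6 : (1 + Real.log K) ^ 2 ≤ c * Real.sqrt K / Real.log K := by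
        rw [le_div_iff₀ hlK]
        exact h5
      calc ((z ^ s : ℕ) : ℝ) * (1 + Real.log K) ^ 2 ≤ Real.sqrt K * (c * Real.sqrt K / Real.log K) :=
            mul_le_mul (h2.trans h3) h6 (by positivity) (Real.sqrt_nonneg _)
        _ = (Real.sqrt K * Real.sqrt K) * (c / Real.log K) := by ring
        _ = K * (c / Real.log K) := by rw [Real.mul_self_sqrt hKpos.le]
        _ ≤ K * VP P' := mul_le_mul_of_nonneg_left hVPlow hKpos.le
    -- the large primes
    have hlarge : c / (2 * (4 * s) * C₂) ≤ ∏ l ∈ P.filter (fun l => ¬ l < z), ff l := by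
      have hXK : X ≤ K := by
        rw [hX]
        calc (K : ℝ) ^ (1 / (4 * (s : ℝ))) ≤ (K : ℝ) ^ (1 : ℝ) := by
              apply Real.rpow_le_rpow_of_exponent_le (by linarith)
              rw [div_le_one (by positivity)]
              have : (1 : ℝ) ≤ s := by exact_mod_cast hs1
              linarith
          _ = K := Real.rpow_one _
      refine (large_primes hc hC₂ hM hX16 hXK (r := 4 * s) ?_).trans ?_
      · rw [hlX]
        apply le_of_eq
        field_simp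
      · apply prod_subset_le
        · intro l hl
          rw [mem_filter] at hl
          obtain ⟨h2, h3⟩ := hP l hl.1
          unfold pyz
          rw [mem_filter, mem_Icc, Nat.floor_natCast]
          have h4 : l ≤ l ^ 2 := Nat.le_self_pow (by norm_num) l
          refine ⟨⟨h2.one_lt.le, by omega⟩, h2, ?_⟩
          have h5 : X < (z : ℝ) + 1 := by
            rw [hz]
            exact Nat.lt_floor_add_one X
          have h6 : (z : ℝ) ≤ l := by exact_mod_cast not_lt.1 hl.2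
          linarith
        · intro p hp
          exact (mem_filter.1 hp).2.1
    have hsplit : (∏ l ∈ P', ff l) * ∏ l ∈ P.filter (fun l => ¬ l < z), ff l = ∏ l ∈ P, ff l :=
      prod_filter_mul_prod_filter_not P (fun l => l < z) ff
    have hVPP : VP P' ≤ 8 * s * C₂ / c * ∏ l ∈ P, ff l := by
      rw [← hsplit, ← hVP]
      have h2 : 0 < VP P' := VP_pos P' hP'p
      have h3 : VP P' * (c / (2 * (4 * s) * C₂)) ≤
          VP P' * ∏ l ∈ P.filter (fun l => ¬ l < z), ff l :=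
        mul_le_mul_of_nonneg_left hlarge h2.le
      have h4 : 8 * s * C₂ / c * (VP P' * (c / (2 * (4 * s) * C₂))) = VP P' := by
        field_simp
        ring
      calc VP P' = 8 * s * C₂ / c * (VP P' * (c / (2 * (4 * s) * C₂))) := h4.symm
        _ ≤ _ := mul_le_mul_of_nonneg_left h3 (by positivity)
    calc _ ≤ 8 * (K * VP P') + (z ^ s : ℕ) * (1 + Real.log K) ^ 2 := h0.trans h1
      _ ≤ 9 * (K * VP P') := by linarith
      _ ≤ 9 * (K * (8 * s * C₂ / c * ∏ l ∈ P, ff l)) := by gcongr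
      _ = 9 * (8 * s * C₂ / c) * (K * ∏ l ∈ P, ff l) := by ring
      _ ≤ _ := mul_le_mul_of_nonneg_right ((le_max_right _ _).trans (le_max_right _ _)) hKP

end

end Pool.Agent.FXD
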