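import Mathlib
import Pool.Agent.FXD.Sie
import Pool.Agent.Lib_helper9.LG.THDd
import Pool.Agent.Lib_helper9.LG.Avg

set_option autoImplicit false

/-!
The classes modulo `W` with few surviving sites.
-/

namespace Pool.Agent.FXD

open Finset Filter Pool.Agent.UNI Pool.Agent.FXC
open Pool.Agent.Lib_helper9.LG Pool.Agent.Lib_helper9.LG.KVBd Pool.Agent.Lib_helper9.LG.THDd

noncomputable section

/-- The sites `(h, k)`: the numbers `h a + k n`. -/
def sites (a : ℤ) (H K : ℕ) : Finset (ℕ × ℤ) :=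
  ((Icc 1 H) ×ˢ (Icc (-(K : ℤ)) K)).filter (fun p => p.2 ≠ 0 ∧ p.1.Coprime p.2.natAbs ∧
    p.2.natAbs.Coprime a.natAbs)

/-- The sites without prime factors in `W`. -/
def surv (a : ℤ) (H K W b : ℕ) : Finset (ℕ × ℤ) :=
  (sites a H K).filter (fun p => ((p.1 : ℤ) * a + p.2 * (b : ℤ)).natAbs.Coprime W)

/-- the allowed residues -/
def gP (H p y : ℕ) : ℝ := if p ≤ H → ¬ p ∣ y then 1 else 0

/-- the allowed residues without hit -/
def fP (a : ℤ) (H h : ℕ) (k : ℤ) (p y : ℕ) : ℝ :=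
  if (p ≤ H → ¬ p ∣ y) ∧ ¬ (p : ℤ) ∣ (h : ℤ) * a + k * (y : ℤ) then 1 else 0

lemma gP_per (H p y : ℕ) : gP H p (y + p) = gP H p y := by
  unfold gP
  have : p ∣ y + p ↔ p ∣ y := Nat.dvd_add_self_right
  simp only [this]

lemma fP_per (a : ℤ) (H h : ℕ) (k : ℤ) (p y : ℕ) : fP a H h k p (y + p) = fP a H h k p y := by
  unfold fP
  have h1 : p ∣ y + p ↔ p ∣ y := Nat.dvd_add_self_right
  have h2 : (p : ℤ) ∣ (h : ℤ) * a + k * ((y + p : ℕ) : ℤ) ↔ (p : ℤ) ∣ (h : ℤ) * a + k * (y : ℤ) := by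
    have e : (h : ℤ) * a + k * ((y + p : ℕ) : ℤ) = ((h : ℤ) * a + k * (y : ℤ)) + p * k := by
      push_cast
      ring
    rw [e]
    exact dvd_add_left (dvd_mul_right _ _)
  simp only [h1, h2]

lemma gP_sum_le (H p : ℕ) : ∑ y ∈ range p, gP H p y ≤ p := by
  have h1 : ∑ y ∈ range p, gP H p y ≤ ∑ _y ∈ range p, (1 : ℝ) := by
    apply Finset.sum_le_sum
    intro y _
    unfold gP
    split_ifs <;> norm_num
  simpa using h1

lemma gP_sum_nonneg (H p : ℕ) : 0 ≤ ∑ y ∈ range p, gP H p y := by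
  apply Finset.sum_nonneg
  intro y _
  unfold gP
  split_ifs <;> norm_num

open Classical in
/-- the local factor -/
lemma local_le (a : ℤ) (H h : ℕ) (k : ℤ) {p : ℕ} (hp : p.Prime) (hpa : ¬ (p : ℤ) ∣ a) :
    ∑ y ∈ range p, fP a H h k p y ≤
      (∑ y ∈ range p, gP H p y) * (if p ∣ h ∨ (p : ℤ) ∣ k then 1 else ff p) := by
  have hle : ∀ y, fP a H h k p y ≤ gP H p y := by
    intro y
    unfold fP gP
    by_cases h1 : p ≤ H → ¬ p ∣ y
    · rw [if_pos h1]
      split_ifs <;> norm_num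
    · rw [if_neg h1, if_neg (fun h => h1 h.1)]
  split_ifs with hcase
  · rw [mul_one]
    exact Finset.sum_le_sum fun y _ => hle y
  · push Not at hcase
    obtain ⟨hph, hpk⟩ := hcase
    have : Fact p.Prime := ⟨hp⟩
    have hk0 : (k : ZMod p) ≠ 0 := by
      intro h1
      exact hpk ((ZMod.intCast_zmod_eq_zero_iff_dvd k p).1 h1)
    obtain ⟨y₀, hy₀⟩ : ∃ y₀ : ℕ, y₀ = (-((h : ZMod p) * (a : ZMod p)) * (k : ZMod p)⁻¹).val :=
      ⟨_, rfl⟩
    have hy₀p : y₀ < p := by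
      rw [hy₀]
      exact ZMod.val_lt _
    have hhit : (p : ℤ) ∣ (h : ℤ) * a + k * (y₀ : ℤ) := by
      rw [← ZMod.intCast_zmod_eq_zero_iff_dvd]
      push_cast
      rw [hy₀, ZMod.natCast_zmod_val]
      field_simp
      ring
    have hy₀0 : ¬ p ∣ y₀ := by
      intro h1
      have h2 : (p : ℤ) ∣ k * (y₀ : ℤ) := (Int.natCast_dvd_natCast.2 h1).mul_left k
      have h3 : (p : ℤ) ∣ (h : ℤ) * a := (dvd_add_left h2).1 hhit
      rcases (Nat.prime_iff_prime_int.1 hp).dvd_or_dvd h3 with h4 | h4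
      · exact hph (Int.natCast_dvd_natCast.1 h4)
      · exact hpa h4
    have h1 : ∑ y ∈ range p, fP a H h k p y ≤
        ∑ y ∈ range p, (gP H p y - if y = y₀ then 1 else 0) := by
      apply Finset.sum_le_sum
      intro y _
      split_ifs with hy
      · rw [hy]
        have e1 : fP a H h k p y₀ = 0 := by
          unfold fP
          rw [if_neg (fun h => h.2 hhit)]
        have e2 : gP H p y₀ = 1 := by
          unfold gP
          rw [if_pos (fun _ => hy₀0)]
        rw [e1, e2]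
        norm_num
      · rw [sub_zero]
        exact hle y
    rw [Finset.sum_sub_distrib, Finset.sum_ite_eq' (range p) y₀ (fun _ => (1 : ℝ)),
      if_pos (mem_range.2 hy₀p)] at h1
    refine h1.trans ?_
    have h2 := gP_sum_le H p
    have h3 := gP_sum_nonneg H p
    have hp0 : (0 : ℝ) < p := by exact_mod_cast hp.pos
    unfold ff
    have h4 : (∑ y ∈ range p, gP H p y) * (1 / (p : ℝ)) ≤ 1 := by
      rw [mul_one_div, div_le_one hp0]
      exact h2
    linarith

/-- products of indicators -/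
lemma prod_ind {P : Finset ℕ} (Φ : ℕ → Prop) [DecidablePred Φ] :
    ∏ p ∈ P, (if Φ p then (1 : ℝ) else 0) = if ∀ p ∈ P, Φ p then 1 else 0 := by
  rw [Finset.prod_ite_zero]
  simp

open Classical in
/-- the number of allowed classes -/
lemma card_G {P : Finset ℕ} (hP : ∀ p ∈ P, p.Prime) (H : ℕ) :
    (((range (∏ p ∈ P, p)).filter (fun b => ∀ p ∈ P, p ≤ H → ¬ p ∣ b)).card : ℝ) =
      ∏ p ∈ P, ∑ y ∈ range p, gP H p y := by
  rw [← Avg.full_sum (b := 0) (W := 1) (P := P) (F := fun p y => gP H p y)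
    (fun p hp => ⟨hP p hp, fun h => (hP p hp).one_lt.ne' (Nat.dvd_one.1 h)⟩)
    (fun p _ c => gP_per H p c)]
  rw [Finset.card_filter]
  push_cast
  apply Finset.sum_congr rfl
  intro b _
  simp only [zero_add, one_mul, gP]
  rw [prod_ind (fun p => p ≤ H → ¬ p ∣ b)]

open Classical in
/-- the number of allowed classes without hit -/
lemma card_F {P : Finset ℕ} (hP : ∀ p ∈ P, p.Prime) (a : ℤ) (hPa : ∀ p ∈ P, ¬ (p : ℤ) ∣ a)
    (H h : ℕ) (k : ℤ) :
    (((range (∏ p ∈ P, p)).filter (fun b => (∀ p ∈ P, p ≤ H → ¬ p ∣ b) ∧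
      ∀ p ∈ P, ¬ (p : ℤ) ∣ (h : ℤ) * a + k * (b : ℤ))).card : ℝ) ≤
      (((range (∏ p ∈ P, p)).filter (fun b => ∀ p ∈ P, p ≤ H → ¬ p ∣ b)).card : ℝ) *
        ∏ p ∈ P, (if p ∣ h ∨ (p : ℤ) ∣ k then 1 else ff p) := by
  rw [card_G hP H, ← Finset.prod_mul_distrib]
  have h1 : (((range (∏ p ∈ P, p)).filter (fun b => (∀ p ∈ P, p ≤ H → ¬ p ∣ b) ∧
      ∀ p ∈ P, ¬ (p : ℤ) ∣ (h : ℤ) * a + k * (b : ℤ))).card : ℝ) =
      ∏ p ∈ P, ∑ y ∈ range p, fP a H h k p y := by
    rw [← Avg.full_sum (b := 0) (W := 1) (P := P) (F := fun p y => fP a H h k p y)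
      (fun p hp => ⟨hP p hp, fun h => (hP p hp).one_lt.ne' (Nat.dvd_one.1 h)⟩)
      (fun p _ c => fP_per a H h k p c)]
    rw [Finset.card_filter]
    push_cast
    apply Finset.sum_congr rfl
    intro b _
    simp only [zero_add, one_mul, fP]
    rw [prod_ind (fun p => (p ≤ H → ¬ p ∣ b) ∧ ¬ (p : ℤ) ∣ (h : ℤ) * a + k * (b : ℤ))]
    congr 1
    apply propext
    constructor
    · rintro ⟨g1, g2⟩ p hp
      exact ⟨g1 p hp, g2 p hp⟩
    · intro g
      exact ⟨fun p hp => (g p hp).1, fun p hp => (g p hp).2⟩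
  rw [h1]
  apply Finset.prod_le_prod
  · intro p _
    apply Finset.sum_nonneg
    intro y _
    unfold fP
    split_ifs <;> norm_num
  · intro p hp
    exact local_le a H h k (hP p hp) (hPa p hp)

open Classical in
lemma gI_eq (P : Finset ℕ) (n : ℤ) :
    gI P n = ∏ p ∈ P, (if (p : ℤ) ∣ n then (p : ℝ) / ((p : ℝ) - 1) else 1) := by
  unfold gI
  rw [Finset.prod_filter]

open Classical in
lemma prod_le_gI {P : Finset ℕ} (hP : ∀ p ∈ P, p.Prime) (h : ℕ) (k : ℤ) :
    ∏ p ∈ P, (if p ∣ h ∨ (p : ℤ) ∣ k then 1 else ff p) ≤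
      (∏ p ∈ P, ff p) * (gI P (h : ℤ) * gI P k) := by
  rw [gI_eq, gI_eq, ← Finset.prod_mul_distrib, ← Finset.prod_mul_distrib]
  apply Finset.prod_le_prod
  · intro p hp
    split_ifs
    · exact zero_le_one
    · exact (ff_pos (hP p hp)).1.le
  · intro p hp
    have hp1 : (1 : ℝ) < p := by exact_mod_cast (hP p hp).one_lt
    have hf := ff_pos (hP p hp)
    have hr : 1 ≤ (p : ℝ) / ((p : ℝ) - 1) := by
      rw [le_div_iff₀ (by linarith)]
      linarith
    have hfr : ff p * ((p : ℝ) / ((p : ℝ) - 1)) = 1 := by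
      unfold ff
      have h1 : (p : ℝ) - 1 ≠ 0 := by linarith
      field_simp
    have e : ((p : ℤ) ∣ (h : ℤ)) ↔ p ∣ h := Int.natCast_dvd_natCast
    by_cases h1 : p ∣ h <;> by_cases h2 : (p : ℤ) ∣ k
    · rw [if_pos (Or.inl h1), if_pos (e.2 h1), if_pos h2, ← mul_assoc, hfr, one_mul]
      exact hr
    · rw [if_pos (Or.inl h1), if_pos (e.2 h1), if_neg h2, ← mul_assoc, hfr, one_mul]
    · rw [if_pos (Or.inr h2), if_neg (fun h => h1 (e.1 h)), if_pos h2, one_mul, hfr]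
    · rw [if_neg (fun h => h.elim h1 h2), if_neg (fun h => h1 (e.1 h)), if_neg h2, one_mul, mul_one]

lemma gI_natAbs (P : Finset ℕ) (n : ℤ) : gI P (n.natAbs : ℤ) = gI P n := by
  unfold gI
  congr 1
  apply Finset.filter_congr
  intro p _
  rw [Int.natCast_dvd_natCast, Int.natCast_dvd]

/-- `∏ (1 - 1/p) ≥ 1/H` over the primes up to `H`. -/
lemma prod_ge (H : ℕ) (hH : 1 ≤ H) : 1 / (H : ℝ) ≤ ∏ p ∈ pz H, ff p := by
  induction H, hH using Nat.le_induction with
  | base =>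
    have : pz ((1 : ℕ) : ℝ) = ∅ := by
      unfold pz
      rw [Finset.filter_eq_empty_iff]
      intro p hp hpp
      rw [Nat.floor_natCast, mem_Icc] at hp
      have := hpp.two_le
      omega
    rw [this]
    simp
  | succ n hn ih =>
    have hn0 : (0 : ℝ) < n := by exact_mod_cast hn
    have e : pz ((n + 1 : ℕ) : ℝ) = if (n + 1).Prime then insert (n + 1) (pz (n : ℝ)) else pz (n : ℝ) := by
      unfold pz
      rw [Nat.floor_natCast, Nat.floor_natCast]
      split_ifs with h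
      · ext p
        simp only [mem_filter, mem_Icc, mem_insert]
        constructor
        · rintro ⟨⟨h1, h2⟩, h3⟩
          rcases Nat.lt_or_ge p (n + 1) with h4 | h4
          · exact Or.inr ⟨⟨h1, by omega⟩, h3⟩
          · exact Or.inl (by omega)
        · rintro (h1 | ⟨⟨h1, h2⟩, h3⟩)
          · rw [h1]
            exact ⟨⟨by omega, le_rfl⟩, h⟩
          · exact ⟨⟨h1, by omega⟩, h3⟩
      · ext p
        simp only [mem_filter, mem_Icc]
        constructor
        · rintro ⟨⟨h1, h2⟩, h3⟩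
          refine ⟨⟨h1, ?_⟩, h3⟩
          rcases Nat.lt_or_ge p (n + 1) with h4 | h4
          · omega
          · have : p = n + 1 := by omega
            rw [this] at h3
            exact absurd h3 h
        · rintro ⟨⟨h1, h2⟩, h3⟩
          exact ⟨⟨h1, by omega⟩, h3⟩
    have hstep : 1 / ((n + 1 : ℕ) : ℝ) = (1 / (n : ℝ)) * (1 - 1 / ((n + 1 : ℕ) : ℝ)) := by
      push_cast
      field_simp
      ring
    have hpos : ∀ p ∈ pz (n : ℝ), p.Prime := fun p hp => (mem_filter.1 hp).2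
    have hP0 := ff_prod_pos hpos
    rw [e]
    split_ifs with h
    · rw [Finset.prod_insert, hstep, mul_comm]
      · have h1 : 0 ≤ 1 - 1 / ((n + 1 : ℕ) : ℝ) := (ff_pos h).1.le
        have h2 : ff (n + 1) = 1 - 1 / ((n + 1 : ℕ) : ℝ) := rfl
        rw [h2]
        exact mul_le_mul_of_nonneg_left ih h1
      · unfold pz
        rw [mem_filter, mem_Icc, Nat.floor_natCast]
        omega
    · refine le_trans ?_ ih
      apply one_div_le_one_div_of_le hn0
      push_cast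
      linarith

end

end Pool.Agent.FXD
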