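import Mathlib
import Pool.Agent.Lib_helper9.LG.EXPd

set_option autoImplicit false

/-!
Averages of products of sieve functions, composed with a map which permutes the classes modulo each
prime.
-/

namespace Pool.Agent.FXD

open Finset Pool.Agent.Lib_helper9.LG

/-- The map `σ` permutes the classes modulo `l`. -/
def Bij (σ : ℕ → ℕ) (l : ℕ) : Prop :=
  (∀ c, σ (c + l) ≡ σ c [MOD l]) ∧ ∀ c c', σ c ≡ σ c' [MOD l] → c ≡ c' [MOD l]

lemma per_mul {f : ℕ → ℝ} {l : ℕ} (h : ∀ c, f (c + l) = f c) (k c : ℕ) : f (c + k * l) = f c := by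
  induction k with
  | zero => simp
  | succ k ih =>
    have e : c + (k + 1) * l = (c + k * l) + l := by ring
    rw [e, h, ih]

lemma per_mod {f : ℕ → ℝ} {l : ℕ} (h : ∀ c, f (c + l) = f c) (c : ℕ) : f (c % l) = f c := by
  have h1 := per_mul h (c / l) (c % l)
  have e : c % l + c / l * l = c := Nat.mod_add_div' c l
  rw [e] at h1
  exact h1.symm

lemma per_modEq {f : ℕ → ℝ} {l a b : ℕ} (h : ∀ c, f (c + l) = f c) (hab : a ≡ b [MOD l]) :
    f a = f b := by
  rw [← per_mod h a, ← per_mod h b]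
  congr 1

lemma Bij.per_mul {σ : ℕ → ℕ} {l : ℕ} (h : Bij σ l) (k c : ℕ) : σ (c + k * l) ≡ σ c [MOD l] := by
  induction k with
  | zero => simp [Nat.ModEq]
  | succ k ih =>
    have e : c + (k + 1) * l = (c + k * l) + l := by ring
    rw [e]
    exact (h.1 _).trans ih

lemma modEq_prod {S : Finset ℕ} (hS : ∀ l ∈ S, l.Prime) {a b : ℕ}
    (h : ∀ l ∈ S, a ≡ b [MOD l]) : a ≡ b [MOD ∏ l ∈ S, l] := by
  rw [Nat.modEq_iff_dvd, Int.natCast_dvd]
  apply Finset.prod_primes_dvd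
  · intro l hl
    exact (hS l hl).prime
  · intro l hl
    rw [← Int.natCast_dvd, ← Nat.modEq_iff_dvd]
    exact h l hl

lemma Bij.prod {σ : ℕ → ℕ} {S : Finset ℕ} (hS : ∀ l ∈ S, l.Prime) (h : ∀ l ∈ S, Bij σ l) :
    Bij σ (∏ l ∈ S, l) := by
  constructor
  · intro c
    apply modEq_prod hS
    intro l hl
    obtain ⟨k, hk⟩ := Finset.dvd_prod_of_mem (fun l => l) hl
    rw [hk, mul_comm]
    exact (h l hl).per_mul k c
  · intro c c' hc
    apply modEq_prod hS
    intro l hl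
    exact (h l hl).2 c c' (hc.of_dvd (Finset.dvd_prod_of_mem (fun l => l) hl))

/-- A full period of `g ∘ σ`. -/
lemma sum_bij {σ : ℕ → ℕ} {R : ℕ} (hR : 0 < R) (h : Bij σ R) {g : ℕ → ℝ}
    (hg : ∀ c, g (c + R) = g c) : ∑ c ∈ range R, g (σ c) = ∑ c ∈ range R, g c := by
  have hmaps : ∀ c ∈ range R, σ c % R ∈ range R := fun c _ => mem_range.2 (Nat.mod_lt _ hR)
  have hinj : Set.InjOn (fun c => σ c % R) (range R : Set ℕ) := by
    intro c hc c' hc' he
    have hc := mem_range.1 (mem_coe.1 hc)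
    have hc' := mem_range.1 (mem_coe.1 hc')
    have h1 : σ c ≡ σ c' [MOD R] := he
    have h2 := h.2 c c' h1
    rw [Nat.ModEq, Nat.mod_eq_of_lt hc, Nat.mod_eq_of_lt hc'] at h2
    exact h2
  have himg : (range R).image (fun c => σ c % R) = range R := by
    apply eq_of_subset_of_card_le
    · intro y hy
      obtain ⟨c, hc, rfl⟩ := mem_image.1 hy
      exact hmaps c hc
    · rw [card_image_of_injOn hinj]
  calc ∑ c ∈ range R, g (σ c) = ∑ c ∈ range R, g (σ c % R) :=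
        sum_congr rfl fun c _ => (per_mod hg (σ c)).symm
    _ = ∑ c ∈ (range R).image (fun c => σ c % R), g c := by
        rw [sum_image hinj]
    _ = _ := by rw [himg]

open EXPd

lemma lev_comp {σ : ℕ → ℕ} {S : Finset ℕ} (hσ : ∀ l ∈ S, Bij σ l) {a : ℝ} {g : ℕ → ℝ}
    (h : Lev S a g) : Lev S a (fun c => g (σ c)) := by
  induction h with
  | base E f hE hp hb =>
    exact Lev.base E (fun l c => f l (σ c)) hE
      (fun l hl c => per_modEq (hp l hl) ((hσ l (hE hl)).1 c)) (fun l hl c => hb l hl (σ c))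
  | zero => exact Lev.zero
  | add hg hh ih1 ih2 => exact ih1.add ih2
  | neg hg ih => exact ih.neg
  | mono hg hab ih => exact ih.mono hab

lemma lev_per {S : Finset ℕ} {a : ℝ} {g : ℕ → ℝ} (h : Lev S a g) :
    ∀ c, g (c + ∏ l ∈ S, l) = g c := by
  induction h with
  | base E f hE hp hb =>
    intro c
    refine prod_congr rfl fun l hl => ?_
    obtain ⟨k, hk⟩ := Finset.dvd_prod_of_mem (fun l => l) (hE hl)
    rw [hk, mul_comm]
    exact per_mul (hp l hl) k c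
  | zero => intro c; rfl
  | add hg hh ih1 ih2 =>
    intro c
    dsimp only
    rw [ih1, ih2]
  | neg hg ih =>
    intro c
    dsimp only
    rw [ih]
  | mono hg hab ih => exact ih

/-- EXP with a map `σ`. -/
theorem exps (P : ℕ → Finset ℕ) (b : ℕ → ℕ) (N m W b₀ M₀ n : ℕ)
    (A : Fin n → Finset ℕ) (T : Finset ℕ) (F : ℕ → ℕ → ℝ) (σ : ℕ → ℕ) (hm : 1 ≤ m) (hW : 1 ≤ W)
    (hWm : W.Coprime m)
    (hST : ∀ l ∈ SS P N ∪ T, l.Prime ∧ ¬ l ∣ m ∧ ¬ l ∣ W) (hdis : Disjoint (SS P N) T)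
    (hσ : ∀ l ∈ SS P N ∪ T, Bij σ l)
    (hF : ∀ l ∈ T, ∀ c, F l (c + l) = F l c) (hF1 : ∀ l ∈ T, ∀ c, |F l c| ≤ 1) :
    |∑ x ∈ (range M₀).filter (fun x => (b₀ + W * x).Coprime m),
      (∏ i, Lm P b N m (A i) (σ (b₀ + W * x))) * ∏ l ∈ T, F l (σ (b₀ + W * x)) -
    (M₀ : ℝ) * ((m.totient : ℝ) / m) * (vv P b N m A * ∏ l ∈ T, ((∑ y ∈ range l, F l y) / l))| ≤
    2 ^ m.primeFactors.card * (LV P b N ^ n * ∏ l ∈ T, (l : ℝ)) := by
  classical
  have hS1 : ∀ l ∈ SS P N, 1 ≤ l := fun l hl => (hST l (mem_union_left _ hl)).1.one_lt.le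
  have h1 : ∀ i : Fin n, Lev (SS P N) (LV P b N) (fun c => Lm P b N m (A i) c) := by
    intro i
    unfold Lm LV
    refine Lev.prod hS1 _ fun j hj => ?_
    refine lev_FF (P j) ?_ (b j) m (A i)
    intro l hl
    exact Finset.mem_biUnion.2 ⟨j, hj, hl⟩
  have h2 : Lev (SS P N) (LV P b N ^ n) (fun c => ∏ i, Lm P b N m (A i) c) := by
    have h3 := Lev.prod hS1 (univ : Finset (Fin n)) (a := fun _ => LV P b N)
      (g := fun i c => Lm P b N m (A i) c) fun i _ => h1 i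
    simpa using h3
  have hσS : ∀ l ∈ SS P N, Bij σ l := fun l hl => hσ l (mem_union_left _ hl)
  have hσT : ∀ l ∈ T, Bij σ l := fun l hl => hσ l (mem_union_right _ hl)
  have h3 := EXPd.main (M₀ := M₀) (b₀ := b₀) (F := fun l c => F l (σ c)) hm hW hWm hST hdis
    (fun l hl c => per_modEq (hF l hl) ((hσT l hl).1 c)) (fun l hl c => hF1 l hl (σ c))
    (lev_comp hσS h2)
  have hpr : ∀ l ∈ SS P N, l.Prime := fun l hl => (hST l (mem_union_left _ hl)).1
  have h4 : ∑ c ∈ range (∏ l ∈ SS P N, l), (fun c => ∏ i, Lm P b N m (A i) c) (σ c) =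
      ∑ c ∈ range (∏ l ∈ SS P N, l), (fun c => ∏ i, Lm P b N m (A i) c) c :=
    sum_bij (Finset.prod_pos fun l hl => hS1 l hl) (Bij.prod hpr hσS) (lev_per h2)
  have h5 : ∏ l ∈ T, ((∑ y ∈ range l, (fun l c => F l (σ c)) l y) / l) =
      ∏ l ∈ T, ((∑ y ∈ range l, F l y) / l) := by
    refine prod_congr rfl fun l hl => ?_
    congr 1
    exact sum_bij (hST l (mem_union_right _ hl)).1.pos (hσT l hl) (hF l hl)
  rw [h4, h5] at h3
  unfold vv
  exact h3

end Pool.Agent.FXD
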