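import Mathlib
import Pool.Agent.Lib_helper9.LG.MOMd
import Pool.Agent.FXD.Sig

set_option autoImplicit false

/-!
The fourth moment of the sum of the sieve functions, composed with `σ`.
-/

namespace Pool.Agent.FXD

open Finset Pool.Agent.Lib_helper9.LG Pool.Agent.Lib_helper9.LG.MOMd

theorem momS (h2 : StmtVUP) (P : ℕ → Finset ℕ) (b : ℕ → ℕ) (N m W b₀ M₀ J : ℕ) (S : Finset ℕ)
    (σ : ℕ → ℕ) (hm : 1 ≤ m) (hW : 1 ≤ W) (hM : 1 ≤ M₀) (hWm : W.Coprime m)
    (hdis : ∀ i < N, ∀ j < N, i ≠ j → Disjoint (P i) (P j))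
    (hpr : ∀ l ∈ SS P N, l.Prime ∧ ¬ l ∣ m ∧ ¬ l ∣ W ∧ 16 * J + 4 ≤ l)
    (hσ : ∀ l ∈ SS P N, Bij σ l)
    (hS : ∀ k ∈ S, ∀ l ∈ SS P N, k < l)
    (hsum : ∀ j < N, ∑ l ∈ P j, (1 : ℝ) / l ≤ 1) (hb : ∀ j < N, 175 * (4 * J) + j ≤ b j) :
    (∑ x ∈ (range M₀).filter (fun x => (b₀ + W * x).Coprime m),
      (∑ A ∈ S.powerset.filter (fun A => A.card ≤ J), Lm P b N m A (σ (b₀ + W * x))) ^ 4) /
      ((M₀ : ℝ) * ((m.totient : ℝ) / m)) ≤
    2 * Real.exp (15 * (S.card * VS (SS P N) 1)) +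
      ((S.card : ℝ) + 1) ^ (4 * J) * (2 ^ m.primeFactors.card * LV P b N ^ 4 /
        ((M₀ : ℝ) * ((m.totient : ℝ) / m))) := by
  set 𝒜 := S.powerset.filter (fun A => A.card ≤ J) with h𝒜
  set D : ℝ := (M₀ : ℝ) * ((m.totient : ℝ) / m) with hD
  set E : ℝ := 2 ^ m.primeFactors.card * LV P b N ^ 4 with hE
  have hD0 : 0 < D := by
    have a1 : (0 : ℝ) < M₀ := by exact_mod_cast hM
    have a2 : (0 : ℝ) < m := by exact_mod_cast hm
    have a3 : (0 : ℝ) < m.totient := by exact_mod_cast Nat.totient_pos.2 hm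
    positivity
  have hE0 : 0 ≤ E := by
    have : 0 ≤ LV P b N ^ 4 := by
      have := sq_nonneg (LV P b N ^ 2)
      calc (0 : ℝ) ≤ (LV P b N ^ 2) ^ 2 := this
        _ = LV P b N ^ 4 := by ring
    positivity
  have hexp : ∀ c : ℕ, (∑ A ∈ 𝒜, Lm P b N m A c) ^ 4 =
      ∑ g ∈ Fintype.piFinset (fun _ : Fin 4 => 𝒜), ∏ i, Lm P b N m (g i) c := by
    intro c
    have := (prod_univ_sum (fun _ : Fin 4 => 𝒜) (fun _ A => Lm P b N m A c)).symm
    rw [this, prod_const]
    simp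
  have hl : ∀ l ∈ SS P N, 0 < l := fun l hl => (hpr l hl).1.pos
  have hx0 : 0 ≤ VS (SS P N) 1 := VS_nonneg _ hl
  have hterm : ∀ g ∈ Fintype.piFinset (fun _ : Fin 4 => 𝒜),
      ∑ x ∈ (range M₀).filter (fun x => (b₀ + W * x).Coprime m),
        ∏ i, Lm P b N m (g i) (σ (b₀ + W * x)) ≤
      D * (2 * VS (SS P N) 1 ^ (univ.biUnion g).card) + E := by
    intro g hg
    rw [Fintype.mem_piFinset] at hg
    have hgS : ∀ i, g i ⊆ S := fun i => mem_powerset.1 (mem_filter.1 (hg i)).1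
    have hgJ : ∀ i, (g i).card ≤ J := fun i => (mem_filter.1 (hg i)).2
    have hcard : (univ.biUnion g).card ≤ 4 * J := by
      refine card_biUnion_le.trans ?_
      refine (sum_le_sum (fun i _ => hgJ i)).trans ?_
      simp
    have k1 := exps P b N m W b₀ M₀ 4 g ∅ (fun _ _ => 0) σ hm hW hWm
      (by
        intro l hl
        rw [union_empty] at hl
        exact ⟨(hpr l hl).1, (hpr l hl).2.1, (hpr l hl).2.2.1⟩)
      (disjoint_empty_right _)
      (by
        intro l hl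
        rw [union_empty] at hl
        exact hσ l hl)
      (by intro l hl; exact absurd hl (notMem_empty _))
      (by intro l hl; exact absurd hl (notMem_empty _))
    simp only [prod_empty, mul_one] at k1
    have k2 := h2 P b N m (4 * J) g hdis
      (by
        intro l hl
        refine ⟨(hpr l hl).1, (hpr l hl).2.1, ?_⟩
        have := (hpr l hl).2.2.2
        omega)
      (by
        intro i k hk l hl
        exact hS k (hgS i hk) l hl)
      hcard hsum hb
    have k3 : VS (SS P N) (univ.biUnion g).card ≤ VS (SS P N) 1 ^ (univ.biUnion g).card := by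
      refine VS_le _ _ fun l hl => ⟨(hpr l hl).1.pos, ?_⟩
      have := (hpr l hl).2.2.2
      omega
    have k4 := (abs_le.1 k1).2
    have k5 : D * vv P b N m g ≤ D * (2 * VS (SS P N) 1 ^ (univ.biUnion g).card) :=
      mul_le_mul_of_nonneg_left (by linarith) hD0.le
    have k6 : (M₀ : ℝ) * ((m.totient : ℝ) / m) * (vv P b N m g) = D * vv P b N m g := by rw [hD]
    linarith
  have hcnt : ((Fintype.piFinset (fun _ : Fin 4 => 𝒜)).card : ℝ) ≤ ((S.card : ℝ) + 1) ^ (4 * J) := by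
    rw [Fintype.card_piFinset, prod_const]
    have a1 : 𝒜.card ≤ (S.card + 1) ^ J := card_small S J
    have a2 : 𝒜.card ^ (univ : Finset (Fin 4)).card ≤ ((S.card + 1) ^ J) ^ 4 := by
      rw [card_univ, Fintype.card_fin]
      exact Nat.pow_le_pow_left a1 4
    calc ((𝒜.card ^ (univ : Finset (Fin 4)).card : ℕ) : ℝ) ≤ ((((S.card + 1) ^ J) ^ 4 : ℕ) : ℝ) := by
          exact_mod_cast a2
      _ = ((S.card : ℝ) + 1) ^ (4 * J) := by
          push_cast
          rw [← pow_mul, mul_comm]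
  have hquad : ∑ g ∈ Fintype.piFinset (fun _ : Fin 4 => 𝒜),
      VS (SS P N) 1 ^ (univ.biUnion g).card ≤ Real.exp (15 * (S.card * VS (SS P N) 1)) := by
    have a1 : ∑ g ∈ Fintype.piFinset (fun _ : Fin 4 => 𝒜),
        VS (SS P N) 1 ^ (univ.biUnion g).card ≤
        ∑ g ∈ Fintype.piFinset (fun _ : Fin 4 => S.powerset),
          VS (SS P N) 1 ^ (univ.biUnion g).card := by
      refine sum_le_sum_of_subset_of_nonneg ?_ (fun g _ _ => pow_nonneg hx0 _)
      intro g hg
      rw [Fintype.mem_piFinset] at hg ⊢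
      exact fun i => (mem_filter.1 (hg i)).1
    refine a1.trans ((quad_sum S _ hx0).trans ?_)
    have a2 : 1 + 15 * VS (SS P N) 1 ≤ Real.exp (15 * VS (SS P N) 1) := by
      have := Real.add_one_le_exp (15 * VS (SS P N) 1)
      linarith
    calc (1 + 15 * VS (SS P N) 1) ^ S.card ≤ Real.exp (15 * VS (SS P N) 1) ^ S.card :=
          pow_le_pow_left₀ (by positivity) a2 _
      _ = Real.exp (15 * (S.card * VS (SS P N) 1)) := by
          rw [← Real.exp_nat_mul]
          congr 1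
          ring
  have hmain : ∑ x ∈ (range M₀).filter (fun x => (b₀ + W * x).Coprime m),
      (∑ A ∈ 𝒜, Lm P b N m A (σ (b₀ + W * x))) ^ 4 ≤
      D * (2 * Real.exp (15 * (S.card * VS (SS P N) 1))) +
        ((S.card : ℝ) + 1) ^ (4 * J) * E := by
    rw [sum_congr rfl (fun x _ => hexp (σ (b₀ + W * x))), sum_comm]
    refine (sum_le_sum hterm).trans ?_
    rw [sum_add_distrib, ← mul_sum, ← mul_sum, sum_const, nsmul_eq_mul]
    refine add_le_add ?_ (mul_le_mul_of_nonneg_right hcnt hE0)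
    refine mul_le_mul_of_nonneg_left ?_ hD0.le
    exact mul_le_mul_of_nonneg_left hquad (by norm_num)
  rw [div_le_iff₀ hD0]
  have e : (2 * Real.exp (15 * (S.card * VS (SS P N) 1)) +
      ((S.card : ℝ) + 1) ^ (4 * J) * (E / D)) * D =
      D * (2 * Real.exp (15 * (S.card * VS (SS P N) 1))) +
        ((S.card : ℝ) + 1) ^ (4 * J) * E := by
    rw [add_mul, mul_assoc (((S.card : ℝ) + 1) ^ (4 * J)), div_mul_cancel₀ _ hD0.ne']
    ring
  rw [e]
  exact hmain

end Pool.Agent.FXD
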