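import Mathlib
import Pool.Agent.FXD.Sig
import Pool.Agent.FXD.Srv

set_option autoImplicit false

/-!
The map `σ`: `l ∣ h a + k n` iff `l ∣ σ n + κ |a|`.
-/

namespace Pool.Agent.FXD

open Finset

noncomputable section

/-- the primes up to `N` -/
def prN (N : ℕ) : Finset ℕ := (Icc 1 N).filter Nat.Prime

/-- the common exponent -/
def eN (N : ℕ) : ℕ := 2 * (∏ l ∈ prN N, (l - 1)) - 1

/-- the common modulus -/
def rN (N : ℕ) : ℕ := ∏ l ∈ prN N, l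

lemma rN_pos (N : ℕ) : 0 < rN N :=
  Finset.prod_pos fun _ hl => (mem_filter.1 hl).2.pos

lemma prod_pos' (N : ℕ) : 0 < ∏ l ∈ prN N, (l - 1) :=
  Finset.prod_pos fun _ hl => Nat.sub_pos_of_lt (mem_filter.1 hl).2.one_lt

/-- the power with exponent `eN N` is the inverse -/
lemma pow_eN {N l : ℕ} (hl : l.Prime) (hlN : l ≤ N) [Fact l.Prime] (c : ZMod l) :
    c ^ eN N = c⁻¹ := by
  have hpos := prod_pos' N
  by_cases hc : c = 0
  · rw [hc, inv_zero, zero_pow]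
    unfold eN
    omega
  · have h1 : (l - 1) ∣ ∏ l ∈ prN N, (l - 1) := by
      apply Finset.dvd_prod_of_mem (fun l => l - 1)
      unfold prN
      rw [mem_filter, mem_Icc]
      exact ⟨⟨hl.one_lt.le, hlN⟩, hl⟩
    obtain ⟨t, ht⟩ := h1
    have h2 : c ^ (2 * ∏ l ∈ prN N, (l - 1)) = 1 := by
      rw [ht, mul_comm 2, mul_assoc, pow_mul, ZMod.pow_card_sub_one_eq_one hc, one_pow]
    have h3 : c ^ eN N * c = 1 := by
      rw [← pow_succ]
      have : eN N + 1 = 2 * ∏ l ∈ prN N, (l - 1) := by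
        unfold eN
        omega
      rw [this, h2]
    exact eq_inv_of_mul_eq_one_left h3

theorem sgm (a : ℤ) (H K N D : ℕ) (hD : 1 ≤ D) (hDH : ∀ h, 1 ≤ h → h ≤ H → h ∣ D) :
    ∃ (σ : ℕ → ℕ) (κ : ℕ × ℤ → ℕ),
    (∀ q ∈ sites a H K, κ q ≤ 2 * K * D) ∧
    ∀ l : ℕ, l.Prime → l ≤ N → K < l → ¬ l ∣ D → ¬ l ∣ a.natAbs → Bij σ l ∧
      ∀ n : ℕ, ∀ q ∈ sites a H K, l ∣ σ n + κ q * a.natAbs →
        (l : ℤ) ∣ (q.1 : ℤ) * a + q.2 * (n : ℤ) := by
  obtain ⟨m, hm⟩ : ∃ m : ℕ, m = a.natAbs := ⟨_, rfl⟩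
  obtain ⟨τ, hτ⟩ : ∃ τ : ℕ → ℤ, τ = fun n : ℕ => (m : ℤ) * D * a * (n : ℤ) ^ eN N - K * D * m :=
    ⟨_, rfl⟩
  obtain ⟨σ, hσ⟩ : ∃ σ : ℕ → ℕ, σ = fun n : ℕ => (τ n % (rN N : ℤ)).toNat := ⟨_, rfl⟩
  obtain ⟨κ, hκ⟩ : ∃ κ : ℕ × ℤ → ℕ, κ = fun q => ((K : ℤ) * D + q.2 * ((D / q.1 : ℕ) : ℤ)).toNat :=
    ⟨_, rfl⟩
  have hR0 : (rN N : ℤ) ≠ 0 := by exact_mod_cast (rN_pos N).ne'
  have hσc : ∀ n, ((σ n : ℕ) : ℤ) = τ n % (rN N : ℤ) := by
    intro n
    rw [hσ]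
    exact Int.toNat_of_nonneg (Int.emod_nonneg _ hR0)
  have hκb : ∀ q ∈ sites a H K, 0 ≤ (K : ℤ) * D + q.2 * ((D / q.1 : ℕ) : ℤ) ∧
      (K : ℤ) * D + q.2 * ((D / q.1 : ℕ) : ℤ) ≤ 2 * K * D := by
    intro q hq
    unfold sites at hq
    rw [mem_filter, mem_product, mem_Icc, mem_Icc] at hq
    obtain ⟨⟨_, h1, h2⟩, _⟩ := hq
    have h3 : ((D / q.1 : ℕ) : ℤ) ≤ D := by exact_mod_cast Nat.div_le_self D q.1
    have h4 : (0 : ℤ) ≤ ((D / q.1 : ℕ) : ℤ) := Int.natCast_nonneg _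
    have hK0 : (0 : ℤ) ≤ K := Int.natCast_nonneg _
    have h5 : -((K : ℤ) * D) ≤ q.2 * ((D / q.1 : ℕ) : ℤ) := by
      have e1 : -(K : ℤ) * ((D / q.1 : ℕ) : ℤ) ≤ q.2 * ((D / q.1 : ℕ) : ℤ) :=
        mul_le_mul_of_nonneg_right h1 h4
      have e2 : (K : ℤ) * ((D / q.1 : ℕ) : ℤ) ≤ K * D := mul_le_mul_of_nonneg_left h3 hK0
      linarith
    have h6 : q.2 * ((D / q.1 : ℕ) : ℤ) ≤ (K : ℤ) * D := by
      have e1 : q.2 * ((D / q.1 : ℕ) : ℤ) ≤ (K : ℤ) * ((D / q.1 : ℕ) : ℤ) :=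
        mul_le_mul_of_nonneg_right h2 h4
      have e2 : (K : ℤ) * ((D / q.1 : ℕ) : ℤ) ≤ K * D := mul_le_mul_of_nonneg_left h3 hK0
      linarith
    constructor <;> linarith
  have hκc : ∀ q ∈ sites a H K, ((κ q : ℕ) : ℤ) = (K : ℤ) * D + q.2 * ((D / q.1 : ℕ) : ℤ) := by
    intro q hq
    rw [hκ]
    exact Int.toNat_of_nonneg (hκb q hq).1
  refine ⟨σ, κ, fun q hq => ?_, fun l hl hlN hKl hlD hla => ?_⟩
  · have h1 := (hκb q hq).2
    rw [← hκc q hq] at h1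
    exact_mod_cast h1
  · have : Fact l.Prime := ⟨hl⟩
    have hlR : (l : ℤ) ∣ (rN N : ℤ) := by
      rw [Int.natCast_dvd_natCast]
      apply Finset.dvd_prod_of_mem (fun l => l)
      unfold prN
      rw [mem_filter, mem_Icc]
      exact ⟨⟨hl.one_lt.le, hlN⟩, hl⟩
    -- in `ZMod l`
    have hz : ∀ n, ((σ n : ℕ) : ZMod l) = (τ n : ZMod l) := by
      intro n
      have h1 : ((σ n : ℤ) : ZMod l) = (τ n : ZMod l) := by
        rw [ZMod.intCast_eq_intCast_iff, hσc]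
        exact (Int.mod_modEq _ _).of_dvd hlR
      rw [← h1]
      push_cast
      rfl
    have hzτ : ∀ n : ℕ, (τ n : ZMod l) = (m : ZMod l) * D * a * ((n : ZMod l))⁻¹ - K * D * m := by
      intro n
      rw [hτ]
      push_cast
      rw [pow_eN hl hlN]
    have hD0 : (D : ZMod l) ≠ 0 := by
      intro h1
      exact hlD ((ZMod.natCast_eq_zero_iff D l).1 h1)
    have ha0 : (a : ZMod l) ≠ 0 := by
      intro h1
      exact hla (Int.natCast_dvd.1 ((ZMod.intCast_zmod_eq_zero_iff_dvd a l).1 h1))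
    have hm0 : (m : ZMod l) ≠ 0 := by
      intro h1
      rw [hm] at h1
      exact hla ((ZMod.natCast_eq_zero_iff _ l).1 h1)
    refine ⟨⟨fun c => ?_, fun c c' h => ?_⟩, fun n q hq h => ?_⟩
    · rw [← ZMod.natCast_eq_natCast_iff, hz, hz, hzτ, hzτ]
      push_cast
      rw [ZMod.natCast_self, add_zero]
    · rw [← ZMod.natCast_eq_natCast_iff, hz, hz, hzτ, hzτ] at h
      rw [← ZMod.natCast_eq_natCast_iff]
      have h1 := sub_left_injective h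
      have h2 : (m : ZMod l) * D * a ≠ 0 := mul_ne_zero (mul_ne_zero hm0 hD0) ha0
      have h3 := mul_left_cancel₀ h2 h1
      exact inv_injective h3
    · -- the hit
      rw [← ZMod.intCast_zmod_eq_zero_iff_dvd]
      push_cast
      rw [← hm] at h
      have h1 : ((σ n + κ q * m : ℕ) : ZMod l) = 0 := (ZMod.natCast_eq_zero_iff _ l).2 h
      have h2 : ((κ q : ℕ) : ZMod l) = (K : ZMod l) * D + (q.2 : ZMod l) * ((D / q.1 : ℕ) : ZMod l) := by
        have h3 : (((κ q : ℕ) : ℤ) : ZMod l) =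
            (((K : ℤ) * D + q.2 * ((D / q.1 : ℕ) : ℤ) : ℤ) : ZMod l) := by
          rw [hκc q hq]
        simpa only [Int.cast_add, Int.cast_mul, Int.cast_natCast] using h3
      push_cast at h1
      rw [hz, hzτ, h2] at h1
      unfold sites at hq
      rw [mem_filter, mem_product, mem_Icc, mem_Icc] at hq
      obtain ⟨⟨⟨h4, h5⟩, h6, h7⟩, h8, _⟩ := hq
      have hdvd := hDH q.1 h4 h5
      have h9 : (D : ZMod l) = (q.1 : ZMod l) * ((D / q.1 : ℕ) : ZMod l) := by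
        rw [← Nat.cast_mul, Nat.mul_div_cancel' hdvd]
      have hDq0 : ((D / q.1 : ℕ) : ZMod l) ≠ 0 := by
        intro h10
        apply hD0
        rw [h9, h10, mul_zero]
      have h10 : (m : ZMod l) * ((D / q.1 : ℕ) : ZMod l) *
          ((q.1 : ZMod l) * a * (n : ZMod l)⁻¹ + q.2) = 0 := by
        rw [← h1, h9]
        ring
      have h11 : (q.1 : ZMod l) * a * (n : ZMod l)⁻¹ + q.2 = 0 :=
        (mul_eq_zero.1 h10).resolve_left (mul_ne_zero hm0 hDq0)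
      by_cases hn : (n : ZMod l) = 0
      · exfalso
        rw [hn, inv_zero, mul_zero, zero_add] at h11
        have h12 := (ZMod.intCast_zmod_eq_zero_iff_dvd q.2 l).1 h11
        have h13 := Int.le_of_dvd (by positivity : (0 : ℤ) < |q.2|) ((dvd_abs _ _).2 h12)
        have h14 : |q.2| ≤ K := abs_le.2 ⟨h6, h7⟩
        have h15 : (K : ℤ) < l := by exact_mod_cast hKl
        linarith
      · have h12 : ((q.1 : ZMod l) * a * (n : ZMod l)⁻¹ + q.2) * n = 0 := by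
          rw [h11, zero_mul]
        have h13 : ((q.1 : ZMod l) * a * (n : ZMod l)⁻¹ + q.2) * n =
            (q.1 : ZMod l) * a + q.2 * n := by
          field_simp
        rw [← h13]
        exact h12

end

end Pool.Agent.FXD
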