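import Mathlib
import Pool.Agent.UNI.KVBU

set_option autoImplicit false

/-!
The density of the rough sites which are prime to `m`.
-/

namespace Pool.Agent.FXD

open Pool.Agent.Lib_helper9.LG Pool.Agent.Lib_helper9.LG.KVBd Pool.Agent.UNI
open Finset Filter

noncomputable section

theorem kvx : ∃ C : ℝ, 1 ≤ C ∧ ∃ L₀ : ℝ, ∀ L : ℝ, L₀ ≤ L → ∀ η : ℝ, 0 < η →
    L ^ 4 ≤ Real.exp (η * L) → ∀ A : ℕ, 4 * (A : ℝ) ≤ L → ∀ m : ℕ, 1 ≤ m →
    Real.log m ≤ A * L →
    (∏ p ∈ (pz (Real.sqrt L)).filter (fun p => p ∣ m), ff p) *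
      (((WW m L).totient : ℝ) / (WW m L)) * VS (SPr m L (Real.exp (η * L))) 1 ≤ C / (η * L) := by
  obtain ⟨c, C, hc, hC, hM⟩ := mert
  refine ⟨16 * C ^ 2 / c + 1, by
    have : 0 ≤ 16 * C ^ 2 / c := by positivity
    linarith, 16, fun L hL η hη hx A hA m hm hlm => ?_⟩
  have hL0 : 0 < L := by linarith
  have hlL : 0 < Real.log L := Real.log_pos (by linarith)
  have hL4 : 4 ≤ L ^ 4 := by nlinarith [pow_le_pow_left₀ (by norm_num : (0 : ℝ) ≤ 16) hL 4]
  have hsq4 : 4 ≤ Real.sqrt L := by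
    rw [show (4 : ℝ) = Real.sqrt 16 by
      rw [show (16 : ℝ) = 4 ^ 2 by norm_num, Real.sqrt_sq (by norm_num)]]
    exact Real.sqrt_le_sqrt hL
  set z := Real.exp (η * L) with hz
  have hz4 : 4 ≤ z := hL4.trans hx
  have hlz : Real.log z = η * L := Real.log_exp _
  set P1 := ∏ p ∈ pz (Real.sqrt L), ff p with hP1
  set P2 := ∏ p ∈ pyz (L ^ 4) z, ff p with hP2
  have hP1u : P1 ≤ 2 * C / Real.log L := by
    have h1 := (hM _ hsq4).2
    rw [Real.log_sqrt hL0.le] at h1
    calc P1 ≤ C / (Real.log L / 2) := h1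
      _ = 2 * C / Real.log L := by field_simp
  have hP2u : P2 ≤ 4 * (C / c) * Real.log L / (η * L) := by
    have h1 := prod_pyz (y := L ^ 4) (z := z) (by positivity) hx
    have h2 := (hM _ hL4).1
    have h3 := (hM _ hz4).2
    rw [hlz] at h3
    rw [Real.log_pow] at h2
    push_cast at h2
    have h4 : c / (4 * Real.log L) * P2 ≤ C / (η * L) := by
      refine le_trans ?_ h3
      rw [← h1]
      refine mul_le_mul_of_nonneg_right h2 ?_
      exact prod_nonneg fun p hp => (ff_pos (pyz_prime p hp)).1.le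
    have h5 : P2 = (4 * Real.log L / c) * (c / (4 * Real.log L) * P2) := by
      field_simp
    rw [h5]
    calc (4 * Real.log L / c) * (c / (4 * Real.log L) * P2)
        ≤ (4 * Real.log L / c) * (C / (η * L)) :=
          mul_le_mul_of_nonneg_left h4 (by positivity)
      _ = 4 * (C / c) * Real.log L / (η * L) := by
          field_simp
  have hP1n : 0 ≤ P1 := prod_nonneg fun p hp => (ff_pos (pz_prime p hp)).1.le
  have hP2n : 0 ≤ P2 := prod_nonneg fun p hp => (ff_pos (pyz_prime p hp)).1.le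
  have hPP : P1 * P2 ≤ 8 * (C ^ 2 / c) / (η * L) := by
    calc P1 * P2 ≤ (2 * C / Real.log L) * (4 * (C / c) * Real.log L / (η * L)) :=
          mul_le_mul hP1u hP2u hP2n (by positivity)
      _ = 8 * (C ^ 2 / c) / (η * L) := by
          field_simp
          ring
  have hVS := fewU A L (by linarith) hA m hm hlm z
  have hsplit : (∏ p ∈ (pz (Real.sqrt L)).filter (fun p => p ∣ m), ff p) *
      (((WW m L).totient : ℝ) / (WW m L)) = P1 := by
    rw [WW_eq, hP1]
    exact prod_filter_mul_prod_filter_not (pz (Real.sqrt L)) (fun p => p ∣ m) ff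
  rw [hsplit]
  have hηL : 0 < η * L := by positivity
  calc P1 * VS (SPr m L z) 1 ≤ P1 * (2 * P2) := mul_le_mul_of_nonneg_left hVS hP1n
    _ = 2 * (P1 * P2) := by ring
    _ ≤ 2 * (8 * (C ^ 2 / c) / (η * L)) := by linarith
    _ = (16 * C ^ 2 / c) / (η * L) := by ring
    _ ≤ (16 * C ^ 2 / c + 1) / (η * L) := by
        apply div_le_div_of_nonneg_right _ hηL.le
        linarith

end

end Pool.Agent.FXD
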