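import Mathlib
import Pool.Agent.FXD.Srv

set_option autoImplicit false

/-!
The classes modulo `W` with few surviving sites: the theorem.
-/

namespace Pool.Agent.FXD

open Finset Filter Pool.Agent.UNI Pool.Agent.FXC
open Pool.Agent.Lib_helper9.LG Pool.Agent.Lib_helper9.LG.KVBd Pool.Agent.Lib_helper9.LG.THDd

noncomputable section

lemma gP_sum (H : ℕ) {p : ℕ} (hp : p.Prime) :
    ∑ y ∈ range p, gP H p y = p * (if p ≤ H then ff p else 1) := by
  have hp0 : (p : ℝ) ≠ 0 := by exact_mod_cast hp.ne_zero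
  split_ifs with h
  · have h1 : ∑ y ∈ range p, gP H p y = ∑ y ∈ range p, (1 - if y = 0 then (1 : ℝ) else 0) := by
      apply Finset.sum_congr rfl
      intro y hy
      rw [mem_range] at hy
      unfold gP
      by_cases hy0 : y = 0
      · rw [if_neg, if_pos hy0]
        · norm_num
        · intro h2
          exact h2 h (hy0 ▸ dvd_zero p)
      · rw [if_pos, if_neg hy0]
        · norm_num
        · intro _ h2
          exact hy0 (Nat.eq_zero_of_dvd_of_lt h2 hy)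
    rw [h1, Finset.sum_sub_distrib, Finset.sum_ite_eq' (range p) 0 (fun _ => (1 : ℝ)),
      if_pos (mem_range.2 hp.pos)]
    unfold ff
    simp
    field_simp
  · have h1 : ∑ y ∈ range p, gP H p y = ∑ _y ∈ range p, (1 : ℝ) := by
      apply Finset.sum_congr rfl
      intro y _
      unfold gP
      rw [if_pos (fun h2 => absurd h2 h)]
    rw [h1]
    simp

open Classical in
lemma card_G_ge {P : Finset ℕ} (hP : ∀ p ∈ P, p.Prime) (H : ℕ) (hH : 1 ≤ H) :
    ((∏ p ∈ P, p : ℕ) : ℝ) / H ≤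
      (((range (∏ p ∈ P, p)).filter (fun b => ∀ p ∈ P, p ≤ H → ¬ p ∣ b)).card : ℝ) := by
  rw [card_G hP H, Finset.prod_congr rfl fun p hp => gP_sum H (hP p hp), Finset.prod_mul_distrib]
  have h1 : 1 / (H : ℝ) ≤ ∏ p ∈ P, (if p ≤ H then ff p else 1) := by
    refine (prod_ge H hH).trans ?_
    rw [← Finset.prod_filter]
    apply prod_subset_le
    · intro p hp
      rw [mem_filter] at hp
      unfold pz
      rw [mem_filter, mem_Icc, Nat.floor_natCast]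
      exact ⟨⟨(hP p hp.1).one_lt.le, hp.2⟩, hP p hp.1⟩
    · intro p hp
      exact (mem_filter.1 hp).2
  push_cast
  rw [div_eq_mul_one_div]
  exact mul_le_mul_of_nonneg_left h1 (Finset.prod_nonneg fun p _ => Nat.cast_nonneg p)

/-- the sum over the sites -/
lemma sum_sites {C₁ : ℝ} (hsie : ∀ (K : ℕ) (P Q : Finset ℕ), (∀ l ∈ P, l.Prime ∧ l ^ 2 ≤ K) →
    (∀ l ∈ Q, l.Prime) →
    ∑ k ∈ (Icc 1 K).filter (fun k => ∀ l ∈ P, ¬ l ∣ k), gI Q (k : ℤ) ≤ C₁ * (K * ∏ l ∈ P, ff l))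
    (a : ℤ) (H K : ℕ) (P Pm : Finset ℕ) (hP : ∀ p ∈ P, p.Prime)
    (hPm : ∀ l ∈ Pm, l.Prime ∧ l ^ 2 ≤ K) (hPma : ∀ l ∈ Pm, l ∣ a.natAbs) :
    ∑ q ∈ sites a H K, gI P (q.1 : ℤ) * gI P q.2 ≤
      (4 * H) * (2 * (C₁ * (K * ∏ l ∈ Pm, ff l))) := by
  classical
  set Ks := (Icc (-(K : ℤ)) K).filter (fun k : ℤ => k ≠ 0 ∧ k.natAbs.Coprime a.natAbs) with hKs
  have hnn : ∀ n : ℤ, 0 ≤ gI P n := gI_nonneg P hP
  have h1 : sites a H K ⊆ (Icc 1 H) ×ˢ Ks := by
    intro q hq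
    unfold sites at hq
    rw [mem_filter, mem_product] at hq
    rw [mem_product, hKs, mem_filter]
    exact ⟨hq.1.1, hq.1.2, hq.2.1, hq.2.2.2⟩
  have h2 : ∑ q ∈ sites a H K, gI P (q.1 : ℤ) * gI P q.2 ≤
      ∑ q ∈ (Icc 1 H) ×ˢ Ks, gI P (q.1 : ℤ) * gI P q.2 :=
    Finset.sum_le_sum_of_subset_of_nonneg h1 fun q _ _ => mul_nonneg (hnn _) (hnn _)
  have h3 : ∑ q ∈ (Icc 1 H) ×ˢ Ks, gI P (q.1 : ℤ) * gI P q.2 =
      (∑ h ∈ Icc 1 H, gI P (h : ℤ)) * ∑ k ∈ Ks, gI P k := by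
    rw [Finset.sum_product, Finset.sum_mul_sum]
  set T := (Icc 1 K).filter (fun k => ∀ l ∈ Pm, ¬ l ∣ k) with hT
  have h4 : Ks ⊆ T.image (fun k : ℕ => (k : ℤ)) ∪ T.image (fun k : ℕ => -(k : ℤ)) := by
    intro k hk
    rw [hKs, mem_filter, mem_Icc] at hk
    obtain ⟨⟨h5, h6⟩, h7, h8⟩ := hk
    have hkT : k.natAbs ∈ T := by
      rw [hT, mem_filter, mem_Icc]
      refine ⟨⟨by omega, by omega⟩, fun l hl h9 => ?_⟩
      have h10 := Nat.dvd_gcd h9 (hPma l hl)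
      rw [h8] at h10
      exact (hPm l hl).1.one_lt.ne' (Nat.dvd_one.1 h10)
    rw [mem_union, mem_image, mem_image]
    rcases le_total 0 k with h9 | h9
    · exact Or.inl ⟨k.natAbs, hkT, by omega⟩
    · exact Or.inr ⟨k.natAbs, hkT, by omega⟩
  have h5 : ∑ k ∈ Ks, gI P k ≤ 2 * ∑ k ∈ T, gI P (k : ℤ) := by
    refine (Finset.sum_le_sum_of_subset_of_nonneg h4 fun k _ _ => hnn _).trans ?_
    have h5' := Finset.sum_union_inter (s₁ := T.image (fun k : ℕ => (k : ℤ)))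
      (s₂ := T.image (fun k : ℕ => -(k : ℤ))) (f := fun k : ℤ => gI P k)
    have h5'' : 0 ≤ ∑ k ∈ T.image (fun k : ℕ => (k : ℤ)) ∩ T.image (fun k : ℕ => -(k : ℤ)),
        gI P k := Finset.sum_nonneg fun k _ => hnn k
    have h6 : ∑ k ∈ T.image (fun k : ℕ => (k : ℤ)), gI P k = ∑ k ∈ T, gI P (k : ℤ) := by
      rw [Finset.sum_image]
      intro x _ y _ hxy
      simpa using hxy
    have h7 : ∑ k ∈ T.image (fun k : ℕ => -(k : ℤ)), gI P k = ∑ k ∈ T, gI P (k : ℤ) := by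
      rw [Finset.sum_image]
      · apply Finset.sum_congr rfl
        intro k _
        rw [← gI_natAbs, Int.natAbs_neg, gI_natAbs]
      · intro x _ y _ hxy
        simpa using hxy
    rw [h6, h7] at h5'
    linarith
  have h6 := hsie K Pm P hPm hP
  have h7 := t_SMH P hP H
  have h8 : 0 ≤ ∑ k ∈ Ks, gI P k := Finset.sum_nonneg fun k _ => hnn k
  refine h2.trans ?_
  rw [h3]
  calc (∑ h ∈ Icc 1 H, gI P (h : ℤ)) * ∑ k ∈ Ks, gI P k
      ≤ (4 * H) * ∑ k ∈ Ks, gI P k := mul_le_mul_of_nonneg_right h7 h8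
    _ ≤ _ := by
        apply mul_le_mul_of_nonneg_left _ (by positivity)
        linarith

theorem srv : ∃ C : ℝ, 1 ≤ C ∧ ∀ (L : ℝ) (a : ℤ) (H K : ℕ), 0 ≤ L → a ≠ 0 → 1 ≤ H →
    (H : ℝ) ≤ Real.sqrt L → L ≤ K → 1 ≤ K →
    ∃ R : Finset ℕ, (∀ b ∈ R, b < WW a.natAbs L ∧
      (∀ p : ℕ, p.Prime → p ≤ H → ¬ p ∣ a.natAbs → ¬ p ∣ b) ∧
      ((surv a H K (WW a.natAbs L) b).card : ℝ) ≤ C * (H * K) *
        ((∏ p ∈ (pz (Real.sqrt L)).filter (fun p => p ∣ a.natAbs), ff p) *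
          (((WW a.natAbs L).totient : ℝ) / (WW a.natAbs L)))) ∧
      (WW a.natAbs L : ℝ) ≤ 2 * H * R.card := by
  classical
  obtain ⟨C₁, hC₁, hsie⟩ := sie
  refine ⟨16 * C₁, by linarith, fun L a H K hL ha hH hHL hLK hK => ?_⟩
  set m := a.natAbs with hm
  obtain ⟨P, hPdef⟩ : ∃ P : Finset ℕ,
      P = (Icc 1 ⌊Real.sqrt L⌋₊).filter (fun p => p.Prime ∧ ¬ p ∣ m) := ⟨_, rfl⟩
  have hWP : WW m L = ∏ p ∈ P, p := by
    rw [hPdef]
    rfl
  have hP : ∀ p ∈ P, p.Prime := by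
    intro p hp
    rw [hPdef] at hp
    exact (mem_filter.1 hp).2.1
  have hPm : ∀ p ∈ P, ¬ p ∣ m := by
    intro p hp
    rw [hPdef] at hp
    exact (mem_filter.1 hp).2.2
  have hPa : ∀ p ∈ P, ¬ (p : ℤ) ∣ a := by
    intro p hp h
    exact hPm p hp (Int.natCast_dvd.1 h)
  have hPV : (((WW m L).totient : ℝ) / (WW m L)) = ∏ p ∈ P, ff p := by
    rw [WW_eq, hPdef]
    unfold pz
    rw [filter_filter]
  set V := ∏ p ∈ P, ff p with hV
  have hV0 : 0 < V := ff_prod_pos hP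
  set U := ∏ p ∈ (pz (Real.sqrt L)).filter (fun p => p ∣ m), ff p with hU
  have hU0 : 0 < U := ff_prod_pos fun p hp => (mem_filter.1 (mem_filter.1 hp).1).2
  have hH0 : (0 : ℝ) < H := by exact_mod_cast hH
  have hK0 : (0 : ℝ) < K := by exact_mod_cast hK
  set G := (range (∏ p ∈ P, p)).filter (fun b => ∀ p ∈ P, p ≤ H → ¬ p ∣ b) with hG
  have hGge := card_G_ge hP H hH
  rw [← hG] at hGge
  set M₀ := 8 * C₁ * (H * K) * (U * V) with hM₀
  have hM₀0 : 0 < M₀ := by positivity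
  -- the sum over `G`
  have hsum : ∑ b ∈ G, ((surv a H K (∏ p ∈ P, p) b).card : ℝ) ≤ G.card * M₀ := by
    have e1 : ∀ b, ((surv a H K (∏ p ∈ P, p) b).card : ℝ) = ∑ q ∈ sites a H K,
        if ((q.1 : ℤ) * a + q.2 * (b : ℤ)).natAbs.Coprime (∏ p ∈ P, p) then (1 : ℝ) else 0 := by
      intro b
      unfold surv
      rw [Finset.card_filter]
      push_cast
      rfl
    rw [Finset.sum_congr rfl fun b _ => e1 b, Finset.sum_comm]
    have e2 : ∀ q ∈ sites a H K, (∑ b ∈ G,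
        if ((q.1 : ℤ) * a + q.2 * (b : ℤ)).natAbs.Coprime (∏ p ∈ P, p) then (1 : ℝ) else 0) ≤
        G.card * (V * (gI P (q.1 : ℤ) * gI P q.2)) := by
      intro q _
      rw [← Finset.sum_filter, Finset.sum_const, nsmul_eq_mul, mul_one]
      have e3 := card_F hP a hPa H q.1 q.2
      rw [← hG] at e3
      refine le_trans ?_ (e3.trans (mul_le_mul_of_nonneg_left (prod_le_gI hP q.1 q.2)
        (Nat.cast_nonneg _)))
      have e4 : G.filter (fun b : ℕ =>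
          ((q.1 : ℤ) * a + q.2 * (b : ℤ)).natAbs.Coprime (∏ p ∈ P, p)) ⊆
          (range (∏ p ∈ P, p)).filter (fun b => (∀ p ∈ P, p ≤ H → ¬ p ∣ b) ∧
            ∀ p ∈ P, ¬ (p : ℤ) ∣ (q.1 : ℤ) * a + q.2 * (b : ℤ)) := by
        intro b hb
        rw [mem_filter, hG, mem_filter] at hb
        rw [mem_filter]
        refine ⟨hb.1.1, hb.1.2, fun p hp h5 => ?_⟩
        have h6 := Nat.dvd_gcd (Int.natCast_dvd.1 h5) (Finset.dvd_prod_of_mem (fun p => p) hp)
        rw [hb.2] at h6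
        exact (hP p hp).one_lt.ne' (Nat.dvd_one.1 h6)
      exact_mod_cast card_le_card e4
    refine (Finset.sum_le_sum e2).trans ?_
    rw [← Finset.mul_sum, ← Finset.mul_sum]
    apply mul_le_mul_of_nonneg_left _ (Nat.cast_nonneg _)
    have e5 := sum_sites hsie a H K P ((pz (Real.sqrt L)).filter (fun p => p ∣ m)) hP
      (by
        intro l hl
        rw [mem_filter] at hl
        unfold pz at hl
        rw [mem_filter, mem_Icc] at hl
        refine ⟨hl.1.2, ?_⟩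
        have h6 : (l : ℝ) ≤ Real.sqrt L :=
          (Nat.le_floor_iff (Real.sqrt_nonneg _)).1 hl.1.1.2
        have h7 : (l : ℝ) ^ 2 ≤ L := by
          have := pow_le_pow_left₀ (Nat.cast_nonneg l) h6 2
          rwa [Real.sq_sqrt hL] at this
        have h8 : ((l ^ 2 : ℕ) : ℝ) ≤ K := by
          push_cast
          exact h7.trans hLK
        exact_mod_cast h8)
      (fun l hl => (mem_filter.1 hl).2)
    rw [← hU] at e5
    calc V * ∑ q ∈ sites a H K, gI P (q.1 : ℤ) * gI P q.2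
        ≤ V * ((4 * H) * (2 * (C₁ * (K * U)))) := mul_le_mul_of_nonneg_left e5 hV0.le
      _ = M₀ := by
          rw [hM₀]
          ring
  -- Markov
  set R := G.filter (fun b => ((surv a H K (∏ p ∈ P, p) b).card : ℝ) ≤ 2 * M₀) with hR
  have hcards : (R.card : ℝ) + (G.filter (fun b =>
      ¬ ((surv a H K (∏ p ∈ P, p) b).card : ℝ) ≤ 2 * M₀)).card = G.card := by
    rw [hR]
    exact_mod_cast card_filter_add_card_filter_not (s := G)
      (fun b => ((surv a H K (∏ p ∈ P, p) b).card : ℝ) ≤ 2 * M₀)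
  have hbad : ((G.filter (fun b =>
      ¬ ((surv a H K (∏ p ∈ P, p) b).card : ℝ) ≤ 2 * M₀)).card : ℝ) * (2 * M₀) ≤
      G.card * M₀ := by
    refine le_trans ?_ hsum
    rw [← nsmul_eq_mul]
    refine le_trans (card_nsmul_le_sum _ _ _ ?_)
      (Finset.sum_le_sum_of_subset_of_nonneg (filter_subset _ _) fun b _ _ => Nat.cast_nonneg _)
    intro b hb
    exact (not_le.1 (mem_filter.1 hb).2).le
  have hbad2 : ((G.filter (fun b =>
      ¬ ((surv a H K (∏ p ∈ P, p) b).card : ℝ) ≤ 2 * M₀)).card : ℝ) * 2 ≤ G.card := by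
    have h1 : (((G.filter (fun b =>
      ¬ ((surv a H K (∏ p ∈ P, p) b).card : ℝ) ≤ 2 * M₀)).card : ℝ) * 2) * M₀ ≤
      G.card * M₀ := by linarith
    exact le_of_mul_le_mul_right h1 hM₀0
  have hRG : (G.card : ℝ) ≤ 2 * R.card := by linarith
  refine ⟨R, fun b hb => ?_, ?_⟩
  · rw [hR, mem_filter, hG, mem_filter, mem_range] at hb
    obtain ⟨⟨h1, h2⟩, h3⟩ := hb
    refine ⟨by rw [hWP]; exact h1, ?_, ?_⟩
    · intro p hp hpH hpm
      refine h2 p ?_ hpH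
      rw [hPdef, mem_filter, mem_Icc]
      refine ⟨⟨hp.one_lt.le, ?_⟩, hp, hpm⟩
      apply Nat.le_floor
      have : (p : ℝ) ≤ H := by exact_mod_cast hpH
      linarith
    · rw [hWP] at hPV
      rw [hWP, hPV]
      refine h3.trans (le_of_eq ?_)
      rw [hM₀]
      ring
  · rw [hWP]
    have h1 : ((∏ p ∈ P, p : ℕ) : ℝ) = ((∏ p ∈ P, p : ℕ) : ℝ) / H * H := by
      field_simp
    rw [h1]
    calc ((∏ p ∈ P, p : ℕ) : ℝ) / H * H ≤ G.card * H :=
          mul_le_mul_of_nonneg_right hGge hH0.le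
      _ ≤ 2 * R.card * H := mul_le_mul_of_nonneg_right hRG hH0.le
      _ = 2 * H * R.card := by ring

end

end Pool.Agent.FXD
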