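import Mathlib
import Pool.Agent.FXD.EdS
import Pool.Agent.FXD.SrvB
import Pool.Agent.FXD.Sgm
import Pool.Agent.FXD.Kvx

set_option autoImplicit false

/-!
Intervals of length `2 exp L`.
-/

namespace Pool.Agent.FXD

open Finset Pool.Agent.UNI
open Pool.Agent.Lib_helper9.LG Pool.Agent.Lib_helper9.LG.KVBd Pool.Agent.Lib_helper9.LG.THDd

noncomputable section

open Classical in
/-- The good moduli. -/
def gm (a : ℤ) (H y z : ℕ) (V : ℝ) : Finset ℕ :=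
  (Icc y z).filter (fun n => ∀ h : ℤ, h ≠ 0 → |h| ≤ H → IsCoprime (h * a) (n : ℤ) ∧
    ∀ k : ℤ, k ≠ 0 → (|k| : ℝ) ≤ V → ∀ q : ℕ, q.Prime → (q : ℤ) ≠ h * a + k * n)

/-- The values are not prime. -/
lemma no_prime {a : ℤ} {H K W b n : ℕ} {E : ℝ} (hmod : n ≡ b [MOD W])
    (hE : ∀ h₁ : ℕ, 1 ≤ h₁ → h₁ ≤ H → ∀ k₁ : ℤ, k₁ ≠ 0 →
      E < ((((h₁ : ℤ) * a + k₁ * (n : ℤ)).natAbs : ℕ) : ℝ))
    (hEH : (H : ℝ) ≤ E) (hEK : (K : ℝ) ≤ E) (hEW : ∀ p : ℕ, p.Prime → p ∣ W → (p : ℝ) ≤ E)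
    (hsites : ∀ q ∈ surv a H K W b, ∃ l : ℕ, l.Prime ∧ (l : ℝ) ≤ E ∧
      (l : ℤ) ∣ (q.1 : ℤ) * a + q.2 * (n : ℤ))
    (h : ℤ) (hh : h ≠ 0) (hhH : |h| ≤ H) (k : ℤ) (hk : k ≠ 0) (hkK : |k| ≤ K) (q : ℕ)
    (hq : q.Prime) : (q : ℤ) ≠ h * a + k * n := by
  intro he
  obtain ⟨h₁, hh₁⟩ : ∃ h₁ : ℕ, h₁ = h.natAbs := ⟨_, rfl⟩
  obtain ⟨k₁, hk₁⟩ : ∃ k₁ : ℤ, k₁ = h.sign * k := ⟨_, rfl⟩
  have hs : h.sign * h.sign = 1 := by
    rcases lt_or_gt_of_ne hh with h1 | h1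
    · rw [Int.sign_eq_neg_one_of_neg h1]
      norm_num
    · rw [Int.sign_eq_one_of_pos h1]
      norm_num
  have hs0 : h.sign ≠ 0 := by
    intro h1
    rw [h1] at hs
    norm_num at hs
  have hhc : (h₁ : ℤ) = h.sign * h := by
    rw [hh₁]
    exact (Int.sign_mul_self_eq_natAbs h).symm
  have hk₁0 : k₁ ≠ 0 := by
    rw [hk₁]
    exact mul_ne_zero hs0 hk
  have hX : (h₁ : ℤ) * a + k₁ * n = h.sign * q := by
    rw [hhc, hk₁, he]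
    ring
  have habs : ((h₁ : ℤ) * a + k₁ * n).natAbs = q := by
    rw [hX, Int.natAbs_mul, Int.natAbs_sign_of_ne_zero hh, one_mul, Int.natAbs_natCast]
  have hh₁1 : 1 ≤ h₁ := by omega
  have hh₁H : h₁ ≤ H := by
    have : (h₁ : ℤ) ≤ H := by
      rw [hh₁, Int.natCast_natAbs]
      exact hhH
    exact_mod_cast this
  have hk₁K : k₁.natAbs ≤ K := by
    rw [hk₁, Int.natAbs_mul, Int.natAbs_sign_of_ne_zero hh, one_mul]
    have : ((k.natAbs : ℕ) : ℤ) ≤ K := by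
      rw [Int.natCast_natAbs]
      exact hkK
    exact_mod_cast this
  have hEq : E < q := by
    have h1 := hE h₁ hh₁1 hh₁H k₁ hk₁0
    rwa [habs] at h1
  have hno : ∀ p : ℕ, p.Prime → (p : ℝ) ≤ E → ¬ (p : ℤ) ∣ (h₁ : ℤ) * a + k₁ * n := by
    intro p hp hpE hd
    rw [Int.natCast_dvd, habs] at hd
    rw [(Nat.prime_dvd_prime_iff_eq hp hq).1 hd] at hpE
    linarith
  by_cases c1 : h₁.Coprime k₁.natAbs
  · by_cases c2 : k₁.natAbs.Coprime a.natAbs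
    · by_cases c3 : ((h₁ : ℤ) * a + k₁ * (b : ℤ)).natAbs.Coprime W
      · have hmem : (h₁, k₁) ∈ surv a H K W b := by
          unfold surv sites
          rw [mem_filter, mem_filter, mem_product, mem_Icc, mem_Icc]
          refine ⟨⟨⟨⟨hh₁1, hh₁H⟩, ?_⟩, hk₁0, c1, c2⟩, c3⟩
          constructor
          · change -(K : ℤ) ≤ k₁
            omega
          · change k₁ ≤ (K : ℤ)
            omega
        obtain ⟨l, hl, hlE, hd⟩ := hsites _ hmem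
        exact hno l hl hlE hd
      · obtain ⟨p, hp, hp1, hp2⟩ := Nat.Prime.not_coprime_iff_dvd.1 c3
        refine hno p hp (hEW p hp hp2) ?_
        have h1 : (p : ℤ) ∣ (h₁ : ℤ) * a + k₁ * (b : ℤ) := Int.natCast_dvd.2 hp1
        have h2 : (p : ℤ) ∣ (b : ℤ) - n := (Nat.modEq_iff_dvd.1 (hmod.of_dvd hp2))
        have h3 : (h₁ : ℤ) * a + k₁ * n = ((h₁ : ℤ) * a + k₁ * (b : ℤ)) - k₁ * ((b : ℤ) - n) := by
          ring
        rw [h3]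
        exact dvd_sub h1 (h2.mul_left k₁)
    · obtain ⟨p, hp, hp1, hp2⟩ := Nat.Prime.not_coprime_iff_dvd.1 c2
      refine hno p hp ?_ ?_
      · have h1 : p ≤ k₁.natAbs := Nat.le_of_dvd (Int.natAbs_pos.2 hk₁0) hp1
        have h2 : (p : ℝ) ≤ K := by exact_mod_cast h1.trans hk₁K
        linarith
      · exact dvd_add ((Int.natCast_dvd.2 hp2).mul_left _) ((Int.natCast_dvd.2 hp1).mul_right _)
  · obtain ⟨p, hp, hp1, hp2⟩ := Nat.Prime.not_coprime_iff_dvd.1 c1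
    refine hno p hp ?_ ?_
    · have h1 : p ≤ h₁ := Nat.le_of_dvd hh₁1 hp1
      have h2 : (p : ℝ) ≤ H := by exact_mod_cast h1.trans hh₁H
      linarith
    · exact dvd_add ((Int.natCast_dvd_natCast.2 hp1).mul_right _)
        ((Int.natCast_dvd.2 hp2).mul_right _)

/-- Size of the values. -/
lemma val_ge {a : ℤ} {H y n h₁ : ℕ} {k₁ : ℤ} (hy : 2 * H * a.natAbs ≤ y) (hn : y ≤ n)
    (hh₁ : h₁ ≤ H) (hk₁ : k₁ ≠ 0) :
    (y : ℝ) / 2 ≤ ((((h₁ : ℤ) * a + k₁ * (n : ℤ)).natAbs : ℕ) : ℝ) := by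
  have h1 : (n : ℤ) ≤ |k₁ * (n : ℤ)| := by
    rw [abs_mul, Nat.abs_cast]
    have : (1 : ℤ) ≤ |k₁| := Int.one_le_abs hk₁
    have hn0 : (0 : ℤ) ≤ n := Int.natCast_nonneg n
    nlinarith
  have h2 : |(h₁ : ℤ) * a| ≤ (H : ℤ) * a.natAbs := by
    rw [abs_mul, Nat.abs_cast, Int.abs_eq_natAbs]
    have : (h₁ : ℤ) ≤ H := by exact_mod_cast hh₁
    exact mul_le_mul_of_nonneg_right this (Int.natCast_nonneg _)
  have h3 : |k₁ * (n : ℤ)| - |(h₁ : ℤ) * a| ≤ |(h₁ : ℤ) * a + k₁ * (n : ℤ)| := by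
    have := abs_sub_abs_le_abs_sub (k₁ * (n : ℤ)) (-((h₁ : ℤ) * a))
    rw [abs_neg] at this
    refine this.trans (le_of_eq ?_)
    congr 1
    ring
  have h4 : (2 : ℤ) * (H * a.natAbs) ≤ y := by
    have : ((2 * H * a.natAbs : ℕ) : ℤ) ≤ y := by exact_mod_cast hy
    push_cast at this ⊢
    linarith
  have h5 : (y : ℤ) ≤ n := by exact_mod_cast hn
  have h6 : (y : ℤ) ≤ 2 * |(h₁ : ℤ) * a + k₁ * (n : ℤ)| := by linarith
  rw [div_le_iff₀ (by norm_num : (0 : ℝ) < 2)]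
  have h7 : (y : ℤ) ≤ 2 * ((((h₁ : ℤ) * a + k₁ * (n : ℤ)).natAbs : ℕ) : ℤ) := by
    rw [Int.natCast_natAbs]
    exact h6
  have h8 : y ≤ 2 * ((h₁ : ℤ) * a + k₁ * (n : ℤ)).natAbs := by exact_mod_cast h7
  have h9 : (y : ℝ) ≤ 2 * ((((h₁ : ℤ) * a + k₁ * (n : ℤ)).natAbs : ℕ) : ℝ) := by exact_mod_cast h8
  linarith

/-- Upper bound for the values. -/
lemma val_le {a : ℤ} {H y n h₁ K : ℕ} {k₁ : ℤ} (hy : 2 * H * a.natAbs ≤ y)
    (hh₁ : h₁ ≤ H) (hk₁ : |k₁| ≤ K) :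
    ((((h₁ : ℤ) * a + k₁ * (n : ℤ)).natAbs : ℕ) : ℝ) ≤ y + K * n := by
  have h1 : |k₁ * (n : ℤ)| ≤ K * n := by
    rw [abs_mul, Nat.abs_cast]
    exact mul_le_mul_of_nonneg_right hk₁ (Int.natCast_nonneg n)
  have h2 : |(h₁ : ℤ) * a| ≤ (H : ℤ) * a.natAbs := by
    rw [abs_mul, Nat.abs_cast, Int.abs_eq_natAbs]
    have : (h₁ : ℤ) ≤ H := by exact_mod_cast hh₁
    exact mul_le_mul_of_nonneg_right this (Int.natCast_nonneg _)
  have h4 : (H : ℤ) * a.natAbs ≤ y := by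
    have h5 : H * a.natAbs ≤ y := by
      have : 2 * H * a.natAbs = H * a.natAbs + H * a.natAbs := by ring
      omega
    exact_mod_cast h5
  have h3 := abs_add_le ((h₁ : ℤ) * a) (k₁ * (n : ℤ))
  have h6 : (((((h₁ : ℤ) * a + k₁ * (n : ℤ)).natAbs : ℕ) : ℤ)) ≤ ((y + K * n : ℕ) : ℤ) := by
    rw [Int.natCast_natAbs]
    push_cast
    linarith
  have h7 : ((h₁ : ℤ) * a + k₁ * (n : ℤ)).natAbs ≤ y + K * n := by exact_mod_cast h6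
  exact_mod_cast h7

end

end Pool.Agent.FXD
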