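import Mathlib
import Pool.Agent.FXD.ThS

set_option autoImplicit false

/-!
Intervals of length `2 exp L`: the theorem.
-/

namespace Pool.Agent.FXD

open Finset Pool.Agent.UNI
open Pool.Agent.Lib_helper9.LG Pool.Agent.Lib_helper9.LG.KVBd Pool.Agent.Lib_helper9.LG.THDd

noncomputable section

/-- `lcm(1, ..., H) ≤ exp (6 H)`. -/
lemma lcm_le (H : ℕ) : (Nat.lcmUpto H : ℝ) ≤ Real.exp (6 * H) := by
  have h0 : (0 : ℝ) < Nat.lcmUpto H := by exact_mod_cast Nat.lcmUpto_pos H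
  rw [← Real.log_le_iff_le_exp h0, ← Chebyshev.psi_eq_log_lcmUpto]
  refine (Chebyshev.psi_le_const_mul_self (Nat.cast_nonneg H)).trans ?_
  apply mul_le_mul_of_nonneg_right _ (Nat.cast_nonneg H)
  have h1 : Real.log 4 = 2 * Real.log 2 := by
    rw [show (4 : ℝ) = 2 ^ 2 by norm_num, Real.log_pow]
    norm_num
  have := Real.log_two_lt_d9
  linarith

/-- the last step -/
lemma final_exp {A : ℕ} {κ₁ s H : ℝ} (hs : 1 ≤ s) (hH0 : 0 ≤ H) (hHs : H ≤ s) (hκ : 0 ≤ κ₁) :
    4 * H * Real.exp (-(((A : ℝ) + 1) * Real.exp ((κ₁ + 4) * s))) ≤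
      Real.exp (-(((A : ℝ) + 1) * Real.exp (κ₁ * s))) := by
  have hA : (0 : ℝ) ≤ A := Nat.cast_nonneg A
  have h1 : Real.exp (κ₁ * s) + 4 * s ≤ Real.exp ((κ₁ + 4) * s) := by
    have e1 : Real.exp ((κ₁ + 4) * s) = Real.exp (κ₁ * s) * Real.exp (4 * s) := by
      rw [← Real.exp_add]
      congr 1
      ring
    have e2 := Real.add_one_le_exp (4 * s)
    have e3 : 1 ≤ Real.exp (κ₁ * s) := Real.one_le_exp (by positivity)
    rw [e1]
    have e4 : Real.exp (κ₁ * s) * (4 * s + 1) ≤ Real.exp (κ₁ * s) * Real.exp (4 * s) :=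
      mul_le_mul_of_nonneg_left e2 (Real.exp_nonneg _)
    have e5 : 1 * (4 * s) ≤ Real.exp (κ₁ * s) * (4 * s) :=
      mul_le_mul_of_nonneg_right e3 (by linarith)
    linarith
  have h2 : ((A : ℝ) + 1) * Real.exp (κ₁ * s) + 4 * s ≤ ((A : ℝ) + 1) * Real.exp ((κ₁ + 4) * s) := by
    have e1 : ((A : ℝ) + 1) * (Real.exp (κ₁ * s) + 4 * s) ≤
        ((A : ℝ) + 1) * Real.exp ((κ₁ + 4) * s) := mul_le_mul_of_nonneg_left h1 (by linarith)
    have e2 : 0 ≤ (A : ℝ) * (4 * s) := by positivity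
    linarith
  have h3 : 4 * H ≤ Real.exp (4 * s) := by
    have := Real.add_one_le_exp (4 * s)
    linarith
  calc 4 * H * Real.exp (-(((A : ℝ) + 1) * Real.exp ((κ₁ + 4) * s)))
      ≤ Real.exp (4 * s) * Real.exp (-(((A : ℝ) + 1) * Real.exp ((κ₁ + 4) * s))) :=
        mul_le_mul_of_nonneg_right h3 (Real.exp_nonneg _)
    _ = Real.exp (4 * s - ((A : ℝ) + 1) * Real.exp ((κ₁ + 4) * s)) := by
        rw [← Real.exp_add]
        congr 1
    _ ≤ _ := Real.exp_le_exp.2 (by linarith)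

theorem thS : ∃ κ : ℝ, 60 ≤ κ ∧ ∃ L₀ : ℝ, ∀ L : ℝ, L₀ ≤ L → ∀ (A H : ℕ) (t : ℝ), 1 ≤ t →
    1 ≤ H → κ * A ≤ Real.log L → κ * (t * H) ≤ Real.log L → ∀ a : ℤ, a ≠ 0 → ∀ y : ℕ,
    Real.exp L < y → 2 * H * a.natAbs ≤ y → Real.log y + L ≤ A * L → ∀ V : ℝ, V ≤ t * L →
    Real.exp (-(((A : ℝ) + 1) * Real.exp (κ * (t * H)))) *
      (((a.natAbs.totient : ℝ) / a.natAbs) * (2 * Real.exp L)) ≤
      ((gm a H y ⌊(y : ℝ) + 2 * Real.exp L⌋₊ V).card : ℝ) := by
  classical
  obtain ⟨κE, hκE, L₁, hED⟩ := edS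
  obtain ⟨Cs, hCs, hsrv⟩ := srv
  obtain ⟨Ck, hCk, L₂, hkvx⟩ := kvx
  obtain ⟨L₃, hlogs⟩ := log_small
  obtain ⟨C', hC'⟩ : ∃ C' : ℝ, C' = 2 * Cs * Ck := ⟨_, rfl⟩
  have hC'1 : 1 ≤ C' := by
    rw [hC']
    nlinarith
  have hκEC : κE ≤ κE * C' := le_mul_of_one_le_right (by linarith) hC'1
  refine ⟨κE * C' + 4, by linarith, max L₁ (max L₂ L₃), ?_⟩
  intro L hL A H t ht hH hκA hκt a ha y hyL hya hAy V hV
  have hLL1 : L₁ ≤ L := (le_max_left _ _).trans hL
  have hLL2 : L₂ ≤ L := (le_max_left _ _).trans ((le_max_right _ _).trans hL)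
  have hLL3 : L₃ ≤ L := (le_max_right _ _).trans ((le_max_right _ _).trans hL)
  obtain ⟨hL4, hlog26⟩ := hlogs L hLL3
  have hL0 : 0 < L := by linarith
  have hA0 : (0 : ℝ) ≤ A := Nat.cast_nonneg A
  have hH1 : (1 : ℝ) ≤ H := by exact_mod_cast hH
  obtain ⟨s, hs⟩ : ∃ s : ℝ, s = t * H := ⟨_, rfl⟩
  rw [← hs] at hκt ⊢
  have hs1 : 1 ≤ s := by
    rw [hs]
    exact one_le_mul_of_one_le_of_one_le ht hH1
  have hts : t ≤ s := by
    rw [hs]
    exact le_mul_of_one_le_right (by linarith) hH1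
  have hHs : (H : ℝ) ≤ s := by
    rw [hs]
    exact le_mul_of_one_le_left (by linarith) ht
  have hsL : 64 * s ≤ Real.log L := by
    have : 64 * s ≤ (κE * C' + 4) * s := mul_le_mul_of_nonneg_right (by linarith) (by linarith)
    linarith
  have hAL : 64 * (A : ℝ) ≤ Real.log L := by
    have : 64 * (A : ℝ) ≤ (κE * C' + 4) * A := mul_le_mul_of_nonneg_right (by linarith) hA0
    linarith
  have hκA' : κE * A ≤ Real.log L := by
    have h1 : κE * A ≤ (κE * C' + 4) * A := mul_le_mul_of_nonneg_right (by linarith) hA0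
    linarith
  have hκC' : κE * (C' * s) ≤ Real.log L := by
    have h1 : κE * (C' * s) ≤ (κE * C' + 4) * s := by
      have : 0 ≤ 4 * s := by linarith
      linarith
    linarith
  have hss : Real.sqrt L * Real.sqrt L = L := Real.mul_self_sqrt hL0.le
  have hs100 : 100 ≤ Real.sqrt L := Real.le_sqrt_of_sq_le (by linarith)
  have hsqL : Real.sqrt L ≤ L := by nlinarith
  have hlogs' : Real.log L ≤ Real.sqrt L := by
    have : 0 ≤ Real.log L := by linarith
    linarith
  obtain ⟨η, hη, hηκ, hη4, hED'⟩ := hED L hLL1 A (C' * s)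
    (one_le_mul_of_one_le_of_one_le hC'1 hs1) hκA' hκC'
  obtain ⟨m, hm⟩ : ∃ m : ℕ, m = a.natAbs := ⟨_, rfl⟩
  rw [← hm] at hya ⊢
  have hm1 : 1 ≤ m := by
    rw [hm]
    exact Int.natAbs_pos.2 ha
  have hm0 : (0 : ℝ) < m := by exact_mod_cast hm1
  have hy0 : (0 : ℝ) < y := (Real.exp_pos L).trans hyL
  have hmy : (m : ℝ) ≤ y := by
    have h1 : m ≤ y := by
      have : 1 * m ≤ 2 * H * m := Nat.mul_le_mul_right m (by omega)
      omega
    exact_mod_cast h1
  have hlogm : Real.log m ≤ A * L := by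
    have := Real.log_le_log hm0 hmy
    linarith
  -- the modulus
  set z := ⌊Real.sqrt L⌋₊ with hz
  have hzle : (z : ℝ) ≤ Real.sqrt L := Nat.floor_le (Real.sqrt_nonneg _)
  set W := WW m L with hW
  have hW1 : 1 ≤ W := WW_pos m L
  have hW1' : (1 : ℝ) ≤ W := by exact_mod_cast hW1
  have hW0 : (0 : ℝ) < W := by linarith
  have hWle : (W : ℝ) ≤ 4 ^ z := by exact_mod_cast WW_le m L
  have hlog4 : Real.log 4 < 1.4 := by
    have h1 : Real.log 4 = 2 * Real.log 2 := by
      rw [show (4 : ℝ) = 2 ^ 2 by norm_num, Real.log_pow]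
      norm_num
    have := Real.log_two_lt_d9
    rw [h1]
    linarith
  have hW8 : (W : ℝ) ^ 8 ≤ Real.exp L := by
    have h1 : (W : ℝ) ^ 8 ≤ ((4 : ℝ) ^ z) ^ 8 := pow_le_pow_left₀ (by linarith) hWle 8
    have h2 : ((4 : ℝ) ^ z) ^ 8 = Real.exp (Real.log 4 * (z * 8 : ℕ)) := by
      rw [← pow_mul, ← Real.rpow_natCast, Real.rpow_def_of_pos (by norm_num)]
    rw [h2] at h1
    refine h1.trans ?_
    apply Real.exp_le_exp.2
    push_cast
    have h3 : Real.log 4 * ((z : ℝ) * 8) ≤ 1.4 * (Real.sqrt L * 8) := by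
      apply mul_le_mul hlog4.le (by linarith) (by positivity) (by norm_num)
    have h5 : 14 * Real.sqrt L ≤ Real.sqrt L * Real.sqrt L :=
      mul_le_mul_of_nonneg_right (by linarith) (Real.sqrt_nonneg _)
    rw [hss] at h5
    linarith
  have hWX : (W : ℝ) ≤ Real.exp L := by
    refine le_trans ?_ hW8
    exact le_self_pow₀ hW1' (by norm_num)
  have hWm : W.Coprime m := WW_coprime m L
  have hWp : ∀ p : ℕ, p.Prime → p ∣ W → (p : ℝ) ≤ Real.sqrt L := by
    intro p hp hd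
    have h1 := (dvd_WW hp hd).1
    have h2 : (p : ℝ) ≤ z := by exact_mod_cast h1
    linarith
  have hLL4 : L ≤ L ^ 4 := le_self_pow₀ (by linarith) (by norm_num)
  have hL24 : L ^ 2 < L ^ 4 := pow_lt_pow_right₀ (by linarith) (by norm_num)
  have hWp4 : ∀ p : ℕ, p.Prime → p ∣ W → (p : ℝ) ≤ L ^ 4 := by
    intro p hp hd
    have h1 := hWp p hp hd
    linarith
  -- the sites
  obtain ⟨K, hK⟩ : ∃ K : ℕ, K = ⌊t * L⌋₊ + 1 := ⟨_, rfl⟩
  have htL0 : 0 ≤ t * L := by positivity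
  have hKt : (K : ℝ) ≤ t * L + 1 := by
    rw [hK]
    push_cast
    have := Nat.floor_le htL0
    linarith
  have hKt2 : t * L < K := by
    rw [hK]
    push_cast
    exact Nat.lt_floor_add_one _
  have hLK : L ≤ K := by
    have : L ≤ t * L := le_mul_of_one_le_left hL0.le ht
    linarith
  have hK1 : 1 ≤ K := by omega
  have hK2 : (K : ℝ) ≤ 2 * t * L := by
    have : 1 ≤ t * L := one_le_mul_of_one_le_of_one_le ht (by linarith)
    linarith
  obtain ⟨D, hD⟩ : ∃ D : ℕ, D = Nat.lcmUpto H := ⟨_, rfl⟩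
  have hD1 : 1 ≤ D := by
    rw [hD]
    exact Nat.lcmUpto_pos H
  have hDs : (D : ℝ) ≤ Real.sqrt L := by
    rw [hD]
    refine (lcm_le H).trans ?_
    have h1 : Real.sqrt L = Real.exp (Real.log L / 2) := by
      rw [Real.sqrt_eq_rpow, Real.rpow_def_of_pos hL0]
      congr 1
      ring
    rw [h1]
    apply Real.exp_le_exp.2
    linarith
  have hDH : ∀ h, 1 ≤ h → h ≤ H → h ∣ D := by
    intro h h1 h2
    rw [hD]
    exact Finset.dvd_lcm (f := id) (mem_Icc.2 ⟨h1, h2⟩)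
  have h4t : 4 * t ≤ Real.sqrt L := by linarith
  have hKL2 : (K : ℝ) ≤ L ^ 2 := by
    have h1 : 2 * t * L ≤ Real.sqrt L * L := mul_le_mul_of_nonneg_right (by linarith) hL0.le
    have h2 : Real.sqrt L * L ≤ L * L := mul_le_mul_of_nonneg_right hsqL hL0.le
    have h3 : L * L = L ^ 2 := by ring
    linarith
  have h2KD : ((2 * K * D : ℕ) : ℝ) ≤ L ^ 2 := by
    push_cast
    calc 2 * (K : ℝ) * D ≤ 2 * (2 * t * L) * Real.sqrt L := by gcongr
      _ = L * ((4 * t) * Real.sqrt L) := by ring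
      _ ≤ L * (Real.sqrt L * Real.sqrt L) := by gcongr
      _ = L ^ 2 := by rw [hss]; ring
  obtain ⟨N, hN⟩ : ∃ N : ℕ, N = ⌊Real.exp (L / 100)⌋₊ := ⟨_, rfl⟩
  obtain ⟨σ, κm, hκm, hsgm⟩ := sgm a H K N D hD1 hDH
  have hlbig : ∀ l : ℕ, l.Prime → L ^ 4 < (l : ℝ) → (l : ℝ) ≤ Real.exp (L / 100) → ¬ l ∣ m →
      l ≤ N ∧ K < l ∧ ¬ l ∣ D ∧ ¬ l ∣ a.natAbs := by
    intro l hl hl4 hlx hlm
    refine ⟨?_, ?_, ?_, ?_⟩
    · rw [hN]
      exact Nat.le_floor hlx
    · have : (K : ℝ) < l := by linarith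
      exact_mod_cast this
    · intro h1
      have h2 := Nat.le_of_dvd hD1 h1
      have h3 : (l : ℝ) ≤ D := by exact_mod_cast h2
      linarith
    · rw [← hm]
      exact hlm
  have hσB : ∀ l : ℕ, l.Prime → L ^ 4 < (l : ℝ) → (l : ℝ) ≤ Real.exp (L / 100) → ¬ l ∣ m →
      Bij σ l := by
    intro l hl hl4 hlx hlm
    obtain ⟨h1, h2, h3, h4⟩ := hlbig l hl hl4 hlx hlm
    exact (hsgm l hl h1 h2 h3 h4).1
  have hHsq : (H : ℝ) ≤ Real.sqrt L := by linarith
  obtain ⟨R, hR, hRcard⟩ := hsrv L a H K hL0.le ha hH hHsq hLK hK1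
  rw [← hm] at hR hRcard
  rw [← hW] at hR hRcard
  set Sr : ℕ → Finset ℕ := fun r => (surv a H K W r).image κm with hSr
  have hSk : ∀ r, ∀ k ∈ Sr r, (k : ℝ) ≤ L ^ 2 := by
    intro r k hk
    rw [hSr, mem_image] at hk
    obtain ⟨q, hq, rfl⟩ := hk
    have h1 := hκm q (mem_filter.1 hq).1
    have h2 : ((κm q : ℕ) : ℝ) ≤ ((2 * K * D : ℕ) : ℝ) := by exact_mod_cast h1
    linarith
  have hkv := hkvx L hLL2 η hη hη4 A (by linarith) m hm1 hlogm
  rw [← hW] at hkv
  have hScard : ∀ r ∈ R, ((Sr r).card : ℝ) * VS (SPr m L (Real.exp (η * L))) 1 ≤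
      C' * s / η := by
    intro r hr
    have h4 := (hR r hr).2.2
    have h5 : ((Sr r).card : ℝ) ≤ ((surv a H K W r).card : ℝ) := by
      exact_mod_cast card_image_le
    have hVS0 : 0 ≤ VS (SPr m L (Real.exp (η * L))) 1 := THDd.VS_nonneg m L _
    refine ((mul_le_mul_of_nonneg_right (h5.trans h4) hVS0)).trans ?_
    have h6 : Cs * (H * K) * ((∏ p ∈ (pz (Real.sqrt L)).filter (fun p => p ∣ m), ff p) *
        ((W.totient : ℝ) / W)) * VS (SPr m L (Real.exp (η * L))) 1 =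
        Cs * (H * K) * ((∏ p ∈ (pz (Real.sqrt L)).filter (fun p => p ∣ m), ff p) *
        ((W.totient : ℝ) / W) * VS (SPr m L (Real.exp (η * L))) 1) := by ring
    rw [h6]
    calc Cs * (H * K) * ((∏ p ∈ (pz (Real.sqrt L)).filter (fun p => p ∣ m), ff p) *
        ((W.totient : ℝ) / W) * VS (SPr m L (Real.exp (η * L))) 1)
        ≤ Cs * (H * (2 * t * L)) * (Ck / (η * L)) := by
          have hpr : 0 ≤ (∏ p ∈ (pz (Real.sqrt L)).filter (fun p => p ∣ m), ff p) *
              ((W.totient : ℝ) / W) * VS (SPr m L (Real.exp (η * L))) 1 :=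
            mul_nonneg (mul_nonneg (prod_nonneg fun p hp =>
              (ff_pos (mem_filter.1 (mem_filter.1 hp).1).2).1.le) (by positivity)) hVS0
          have hCs0 : 0 ≤ Cs := by linarith
          apply mul_le_mul _ hkv hpr (by positivity)
          apply mul_le_mul_of_nonneg_left _ hCs0
          exact mul_le_mul_of_nonneg_left hK2 (by linarith)
      _ = C' * s / η := by
          rw [hC', hs]
          field_simp
  obtain ⟨δ, hδd⟩ : ∃ δ : ℝ, δ = Real.exp (-(((A : ℝ) + 1) * Real.exp (κE * C' * s))) := ⟨_, rfl⟩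
  have hδ : 0 < δ := by rw [hδd]; exact Real.exp_pos _
  set ρ : ℝ := (m.totient : ℝ) / m with hρ
  have hρ0 : 0 ≤ ρ := by positivity
  set n := ⌊Real.exp L / W⌋₊ with hn
  have hexpL : 2 * L ^ 2 ≤ Real.exp L := by
    have h1 := Real.pow_div_factorial_le_exp L hL0.le 3
    have h2 : ((3 : ℕ).factorial : ℝ) = 6 := by norm_num [Nat.factorial]
    rw [h2] at h1
    have h3 : L ^ 3 = L * L ^ 2 := by ring
    have h4 : 12 * L ^ 2 ≤ L * L ^ 2 := mul_le_mul_of_nonneg_right (by linarith) (by positivity)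
    linarith
  have hL1L2 : L ≤ L ^ 2 := le_self_pow₀ (by linarith) (by norm_num)
  -- members of the progressions
  have hnup : ∀ r, ∀ x < n, ((fst W y r + W * x : ℕ) : ℝ) ≤ y + 2 * Real.exp L := by
    intro r x hx
    have h4 : ((fst W y r : ℕ) : ℝ) ≤ y + W := by exact_mod_cast (fst_lt hW1).le
    have h5 : (x : ℝ) ≤ Real.exp L / W := by
      have h6 : (x : ℝ) ≤ n := by exact_mod_cast hx.le
      exact h6.trans (Nat.floor_le (by positivity))
    have h7 : (W : ℝ) * x ≤ Real.exp L := by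
      calc (W : ℝ) * x ≤ W * (Real.exp L / W) := mul_le_mul_of_nonneg_left h5 hW0.le
        _ = Real.exp L := by field_simp
    push_cast
    linarith
  have hvv : ∀ r, ∀ x < ⌊Real.exp L / W⌋₊, ∀ k ∈ Sr r, ∃ v : ℕ, 1 ≤ v ∧
      Real.log v ≤ (A + 1) * L ∧
      ∀ l : ℕ, l.Prime → L ^ 4 < (l : ℝ) → (l : ℝ) ≤ Real.exp (L / 100) → ¬ l ∣ m →
        l ∣ σ (fst W y r + W * x) + k * m → l ∣ v := by
    intro r x hx k hk
    rw [hSr, mem_image] at hk
    obtain ⟨q, hq, rfl⟩ := hk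
    have hqs := (mem_filter.1 hq).1
    have hqs' := hqs
    unfold sites at hqs'
    rw [mem_filter, mem_product, mem_Icc, mem_Icc] at hqs'
    obtain ⟨⟨⟨q1, q2⟩, q3, q4⟩, q5, _⟩ := hqs'
    set n' := fst W y r + W * x with hn'
    have hyn' : y ≤ n' := by
      have : y ≤ fst W y r := le_fst
      omega
    have hvge := val_ge (a := a) (H := H) (y := y) (n := n') (h₁ := q.1) (k₁ := q.2)
      (by rw [← hm]; exact hya) hyn' q2 q5
    have hvle := val_le (a := a) (H := H) (y := y) (n := n') (h₁ := q.1) (k₁ := q.2) (K := K)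
      (by rw [← hm]; exact hya) q2 (abs_le.2 ⟨q3, q4⟩)
    set v := ((q.1 : ℤ) * a + q.2 * (n' : ℤ)).natAbs with hv
    have hv0 : (0 : ℝ) < v := by
      have : 0 < (y : ℝ) / 2 := by positivity
      linarith
    refine ⟨v, ?_, ?_, ?_⟩
    · have : 0 < v := by exact_mod_cast hv0
      omega
    · have h1 := hnup r x hx
      rw [← hn'] at h1
      have h2 : (v : ℝ) ≤ y * Real.exp (2 * L) := by
        have h3 : (n' : ℝ) ≤ 3 * y := by linarith
        have h4 : (K : ℝ) * n' ≤ L ^ 2 * (3 * y) :=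
          mul_le_mul hKL2 h3 (Nat.cast_nonneg _) (by positivity)
        have h5 : 1 + 3 * L ^ 2 ≤ Real.exp (2 * L) := by
          have e1 : Real.exp (2 * L) = Real.exp L * Real.exp L := by
            rw [← Real.exp_add]
            congr 1
            ring
          have e2 : (2 : ℝ) * L ^ 2 * (2 * L ^ 2) ≤ Real.exp L * Real.exp L :=
            mul_le_mul hexpL hexpL (by positivity) (Real.exp_nonneg _)
          have e3 : 1 ≤ L ^ 2 := by linarith
          rw [e1]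
          nlinarith
        calc (v : ℝ) ≤ y + L ^ 2 * (3 * y) := by linarith
          _ = y * (1 + 3 * L ^ 2) := by ring
          _ ≤ y * Real.exp (2 * L) := mul_le_mul_of_nonneg_left h5 hy0.le
      have h3 := Real.log_le_log hv0 h2
      rw [Real.log_mul hy0.ne' (Real.exp_pos _).ne', Real.log_exp] at h3
      linarith
    · intro l hl hl4 hlx hlm hd
      obtain ⟨h1, h2, h3, h4⟩ := hlbig l hl hl4 hlx hlm
      have h5 := (hsgm l hl h1 h2 h3 h4).2 n' q hqs (by rw [← hm]; exact hd)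
      exact Int.natCast_dvd.1 h5
  have hgs : ∀ r ∈ R, δ * (Real.exp L / W * ρ) ≤
      ((gs m W (fst W y r) n L σ (Sr r)).card : ℝ) := by
    intro r hr
    have h5 := hED' m W (fst W y r) hm1 hlogm hW1 hW8 hWm hWp4 (Sr r) (hSk r)
      (hScard r hr) σ hσB (hvv r)
    rw [hδd, mul_assoc κE C' s]
    exact h5
  have hsub : ∀ r ∈ R, ∀ x ∈ gs m W (fst W y r) n L σ (Sr r), fst W y r + W * x ∈
      gm a H y ⌊(y : ℝ) + 2 * Real.exp L⌋₊ V := by
    intro r hr x hx
    rw [gs, mem_filter, mem_range] at hx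
    obtain ⟨hxn, hcop, hsites⟩ := hx
    rw [gm, mem_filter, mem_Icc]
    have hyb : y ≤ fst W y r := le_fst
    set n' := fst W y r + W * x with hn'
    have hyn' : y ≤ n' := by omega
    have hmodW : n' ≡ r [MOD W] := by
      have h5 : fst W y r + W * x ≡ r + 0 [MOD W] :=
        Nat.ModEq.add (fst_mod hW1) (Nat.modEq_zero_iff_dvd.2 (dvd_mul_right _ _))
      exact h5
    refine ⟨⟨hyn', Nat.le_floor (hnup r x hxn)⟩, fun h hh hhH => ⟨?_, fun k hk hkV q hq => ?_⟩⟩
    · -- coprimality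
      have hac : IsCoprime a (n' : ℤ) := by
        rw [Int.isCoprime_iff_gcd_eq_one, Int.gcd, Int.natAbs_natCast, ← hm]
        exact (Nat.coprime_comm.1 hcop)
      have hhc : IsCoprime h (n' : ℤ) := by
        rw [Int.isCoprime_iff_gcd_eq_one, Int.gcd, Int.natAbs_natCast]
        by_contra hcon
        obtain ⟨p, hp, hp1, hp2⟩ := Nat.Prime.not_coprime_iff_dvd.1 hcon
        have hpH : p ≤ H := by
          have h1 : p ≤ h.natAbs := Nat.le_of_dvd (Int.natAbs_pos.2 hh) hp1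
          have h2 : ((h.natAbs : ℕ) : ℤ) ≤ H := by
            rw [Int.natCast_natAbs]
            exact hhH
          have h3 : h.natAbs ≤ H := by exact_mod_cast h2
          omega
        by_cases hpm : p ∣ m
        · have h1 := Nat.dvd_gcd hp2 hpm
          rw [hcop] at h1
          exact hp.one_lt.ne' (Nat.dvd_one.1 h1)
        · have h1 := (hR r hr).2.1 p hp hpH hpm
          have hpW : p ∣ W := by
            rw [hW]
            apply Finset.dvd_prod_of_mem (fun p => p)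
            rw [mem_filter, mem_Icc]
            refine ⟨⟨hp.one_lt.le, ?_⟩, hp, hpm⟩
            apply Nat.le_floor
            have : (p : ℝ) ≤ H := by exact_mod_cast hpH
            linarith
          exact h1 (((hmodW.of_dvd hpW).dvd_iff dvd_rfl).1 hp2)
      exact hhc.mul_left hac
    · -- no prime
      have hkK : |k| ≤ K := by
        have h1 : ((|k| : ℤ) : ℝ) ≤ K := by
          push_cast
          linarith
        exact_mod_cast h1
      refine no_prime (E := Real.exp L / 2) hmodW ?_ ?_ ?_ ?_ ?_ h hh hhH k hk hkK q hq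
      · intro h₁ _ hh₁ k₁ hk₁
        have h1 := val_ge (a := a) (H := H) (y := y) (n := n') (h₁ := h₁) (k₁ := k₁)
          (by rw [← hm]; exact hya) hyn' hh₁ hk₁
        linarith
      · linarith
      · linarith
      · intro p hp hpW
        have := hWp p hp hpW
        linarith
      · intro q' hq'
        obtain ⟨l, hl, hlm, hl4, hlx, hd⟩ := hsites (κm q') (by
          rw [hSr]
          exact mem_image_of_mem _ hq')
        obtain ⟨h1, h2, h3, h4⟩ := hlbig l hl hl4 hlx hlm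
        refine ⟨l, hl, ?_, ?_⟩
        · have e1 : Real.exp L = Real.exp (L / 100) * Real.exp (99 * (L / 100)) := by
            rw [← Real.exp_add]
            congr 1
            ring
          have e2 : 2 ≤ Real.exp (99 * (L / 100)) := by
            have := Real.add_one_le_exp (99 * (L / 100))
            linarith
          have e3 : Real.exp (L / 100) * 2 ≤ Real.exp (L / 100) * Real.exp (99 * (L / 100)) :=
            mul_le_mul_of_nonneg_left e2 (Real.exp_nonneg _)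
          linarith
        · exact (hsgm l hl h1 h2 h3 h4).2 n' q' (mem_filter.1 hq').1 (by rw [← hm]; exact hd)
  have hcount := count (gm a H y ⌊(y : ℝ) + 2 * Real.exp L⌋₊ V) R W y hW1
    (fun r => gs m W (fst W y r) n L σ (Sr r)) (δ * (Real.exp L / W * ρ))
    (fun r hr => (hR r hr).1) hsub hgs
  refine le_trans ?_ hcount
  have hH0 : (0 : ℝ) < H := by linarith
  have hRl : (W : ℝ) / (2 * H) ≤ R.card := by
    rw [div_le_iff₀ (by positivity)]
    linarith
  have h4 : (W : ℝ) / (2 * H) * (δ * (Real.exp L / W * ρ)) ≤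
      (R.card : ℝ) * (δ * (Real.exp L / W * ρ)) :=
    mul_le_mul_of_nonneg_right hRl (by positivity)
  refine le_trans ?_ h4
  have h5 := final_exp (A := A) (κ₁ := κE * C') (s := s) (H := (H : ℝ)) hs1 hH0.le hHs (by
    have : 0 ≤ κE := by linarith
    positivity)
  rw [← hδd] at h5
  have h6 : (W : ℝ) / (2 * H) * (δ * (Real.exp L / W * ρ)) = δ * (Real.exp L * ρ) / (2 * H) := by
    field_simp
  rw [h6, le_div_iff₀ (by positivity)]
  calc Real.exp (-(((A : ℝ) + 1) * Real.exp ((κE * C' + 4) * s))) * (ρ * (2 * Real.exp L)) * (2 * H)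
      = (4 * H * Real.exp (-(((A : ℝ) + 1) * Real.exp ((κE * C' + 4) * s)))) *
          (Real.exp L * ρ) := by ring
    _ ≤ δ * (Real.exp L * ρ) := mul_le_mul_of_nonneg_right h5 (by positivity)

end

end Pool.Agent.FXD
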