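import Mathlib
import Pool.Agent.FXD.ThT

set_option autoImplicit false

/-!
Large deviations of the least primes of a fixed class: the final form.
-/

namespace Pool.Agent.FXD

open Finset

/-- the constants -/
lemma fin_exp {A κ u s : ℝ} (hκ : 0 ≤ κ) (hu : 0 ≤ u) (hs : 1 ≤ s) (hA : A ≤ 2 * u + 4) :
    2 * Real.exp (-((1 + u) * Real.exp ((2 * κ + 6) * s))) ≤
      Real.exp (-((A + 1) * Real.exp (κ * (2 * s)))) := by
  have h1 : 1 ≤ Real.exp (κ * (2 * s)) := Real.one_le_exp (by positivity)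
  have h2 : 6 ≤ Real.exp (6 * s) := by
    have := Real.add_one_le_exp (6 * s)
    linarith
  have h3 : Real.exp ((2 * κ + 6) * s) = Real.exp (κ * (2 * s)) * Real.exp (6 * s) := by
    rw [← Real.exp_add]
    congr 1
    ring
  have h4 : 1 + (A + 1) * Real.exp (κ * (2 * s)) ≤ (1 + u) * Real.exp ((2 * κ + 6) * s) := by
    rw [h3]
    have e1 : (A + 1) * Real.exp (κ * (2 * s)) ≤ (5 * (1 + u)) * Real.exp (κ * (2 * s)) :=
      mul_le_mul_of_nonneg_right (by linarith) (Real.exp_nonneg _)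
    have e2 : 1 * 1 ≤ (1 + u) * Real.exp (κ * (2 * s)) :=
      mul_le_mul (by linarith) h1 (by norm_num) (by linarith)
    have e3 : ((1 + u) * Real.exp (κ * (2 * s))) * 6 ≤
        ((1 + u) * Real.exp (κ * (2 * s))) * Real.exp (6 * s) :=
      mul_le_mul_of_nonneg_left h2 (by positivity)
    nlinarith
  have h5 : (2 : ℝ) ≤ Real.exp 1 := by
    have := Real.add_one_le_exp (1 : ℝ)
    linarith
  calc 2 * Real.exp (-((1 + u) * Real.exp ((2 * κ + 6) * s)))
      ≤ Real.exp 1 * Real.exp (-((1 + u) * Real.exp ((2 * κ + 6) * s))) :=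
        mul_le_mul_of_nonneg_right h5 (Real.exp_nonneg _)
    _ = Real.exp (1 - (1 + u) * Real.exp ((2 * κ + 6) * s)) := by
        rw [← Real.exp_add]
        congr 1
    _ ≤ _ := Real.exp_le_exp.2 (by linarith)

open Classical in
theorem finS :
    ∃ c C : ℝ, 0 < c ∧ 0 < C ∧ c * C ≤ 1 / 2 ∧ ∃ x₀ : ℕ, ∀ x : ℕ, x₀ ≤ x →
      ∀ a : ℤ, a ≠ 0 → ∀ H y : ℕ, 1 ≤ H → 2 * H * a.natAbs ≤ y → ∀ t : ℝ, 1 ≤ t →
        t * H + Real.log y / Real.log x ≤ c * Real.log (Real.log x) →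
        Real.exp (-((1 + Real.log y / Real.log x) * Real.exp (C * (t * H)))) *
            ((a.natAbs.totient : ℝ) / a.natAbs * x) ≤
          (((Finset.Icc y (y + x)).filter (fun n : ℕ => ∀ h : ℤ, h ≠ 0 → |h| ≤ H →
            IsCoprime (h * a) (n : ℤ) ∧ ∀ q : ℕ, q.Prime → (q : ℤ) ≡ h * a [ZMOD n] →
              (q : ℤ) ≠ h * a → t * (n * Real.log x) < q)).card : ℝ) := by
  obtain ⟨κ, hκ, L₀, hth⟩ := thS
  refine ⟨1 / (8 * κ), 2 * κ + 6, by positivity, by linarith, ?_,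
    ⌈Real.exp (max (Real.exp (16 * κ)) (L₀ + 2))⌉₊, ?_⟩
  · rw [div_mul_eq_mul_div, div_le_div_iff₀ (by linarith) (by norm_num)]
    linarith
  intro x hx a ha H y hH hy t ht hcond
  have hx1 : Real.exp (max (Real.exp (16 * κ)) (L₀ + 2)) ≤ x :=
    (Nat.le_ceil _).trans (by exact_mod_cast hx)
  have hx0 : (0 : ℝ) < x := (Real.exp_pos _).trans_le hx1
  obtain ⟨ℓ, hℓ⟩ : ∃ ℓ : ℝ, ℓ = Real.log x := ⟨_, rfl⟩
  have hℓ1 : max (Real.exp (16 * κ)) (L₀ + 2) ≤ ℓ := by
    rw [hℓ, Real.le_log_iff_exp_le hx0]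
    exact hx1
  have hℓ2 : Real.exp (16 * κ) ≤ ℓ := (le_max_left _ _).trans hℓ1
  have hℓ3 : L₀ + 2 ≤ ℓ := (le_max_right _ _).trans hℓ1
  have hℓ4 : 961 ≤ ℓ := by
    have := Real.add_one_le_exp (16 * κ)
    linarith
  have hℓ0 : 0 < ℓ := by linarith
  have hll : 16 * κ ≤ Real.log ℓ := by
    rw [Real.le_log_iff_exp_le hℓ0]
    exact hℓ2
  rw [← hℓ] at hcond ⊢
  have hy2 : 2 ≤ y := by
    have h1 : 1 ≤ a.natAbs := Int.natAbs_pos.2 ha
    have h2 : 2 * 1 * 1 ≤ 2 * H * a.natAbs := Nat.mul_le_mul (Nat.mul_le_mul_left 2 hH) h1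
    omega
  have hy1 : (2 : ℝ) ≤ y := by exact_mod_cast hy2
  have hlogy : 0 ≤ Real.log y := Real.log_nonneg (by linarith)
  obtain ⟨u, hu⟩ : ∃ u : ℝ, u = Real.log y / ℓ := ⟨_, rfl⟩
  have hu0 : 0 ≤ u := by
    rw [hu]
    positivity
  rw [← hu] at hcond ⊢
  have hH1 : (1 : ℝ) ≤ H := by exact_mod_cast hH
  obtain ⟨s, hs⟩ : ∃ s : ℝ, s = t * H := ⟨_, rfl⟩
  have hs1 : 1 ≤ s := by
    rw [hs]
    exact one_le_mul_of_one_le_of_one_le ht hH1
  rw [← hs] at hcond ⊢
  have hcond' : 8 * κ * (s + u) ≤ Real.log ℓ := by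
    have h1 : 8 * κ * (s + u) ≤ 8 * κ * (1 / (8 * κ) * Real.log ℓ) :=
      mul_le_mul_of_nonneg_left hcond (by linarith)
    have h2 : 8 * κ * (1 / (8 * κ) * Real.log ℓ) = Real.log ℓ := by
      field_simp
    linarith
  have hκs : 0 ≤ κ * s := by positivity
  have hκu : 0 ≤ κ * u := by positivity
  -- the length
  have hlog4 : Real.log 4 < 1.4 := by
    have h1 : Real.log 4 = 2 * Real.log 2 := by
      rw [show (4 : ℝ) = 2 ^ 2 by norm_num, Real.log_pow]
      norm_num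
    have := Real.log_two_lt_d9
    rw [h1]
    linarith
  have hlog40 : 0 < Real.log 4 := Real.log_pos (by norm_num)
  obtain ⟨L, hL⟩ : ∃ L : ℝ, L = ℓ - Real.log 4 := ⟨_, rfl⟩
  have hexpL : Real.exp L = x / 4 := by
    rw [hL, Real.exp_sub, hℓ, Real.exp_log hx0, Real.exp_log (by norm_num)]
  have hLℓ : ℓ / 2 ≤ L := by linarith
  have hL0 : 0 < L := by linarith
  have hLL : L₀ ≤ L := by linarith
  have hlogL : Real.log ℓ / 2 ≤ Real.log L := by
    have h1 : Real.log (ℓ / 2) ≤ Real.log L := Real.log_le_log (by linarith) hLℓ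
    rw [Real.log_div hℓ0.ne' (by norm_num)] at h1
    have := Real.log_two_lt_d9
    linarith
  -- the start
  obtain ⟨y', hy'⟩ : ∃ y' : ℕ, y' = max y (⌊Real.exp L⌋₊ + 1) := ⟨_, rfl⟩
  have hyy' : y ≤ y' := by
    rw [hy']
    exact le_max_left _ _
  have hexp0 : 0 ≤ Real.exp L := Real.exp_nonneg _
  have hLy' : Real.exp L < y' := by
    have h1 : ⌊Real.exp L⌋₊ + 1 ≤ y' := by
      rw [hy']
      exact le_max_right _ _
    have h2 : ((⌊Real.exp L⌋₊ + 1 : ℕ) : ℝ) ≤ y' := by exact_mod_cast h1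
    push_cast at h2
    have := Nat.lt_floor_add_one (Real.exp L)
    linarith
  have hx4 : (4 : ℝ) ≤ x := by
    have h1 := Real.add_one_le_exp (max (Real.exp (16 * κ)) (L₀ + 2))
    have h2 := le_max_left (Real.exp (16 * κ)) (L₀ + 2)
    have h3 := Real.add_one_le_exp (16 * κ)
    linarith
  have hcases : y' = y ∨ (y' : ℝ) ≤ Real.exp L + 1 := by
    rcases le_total (⌊Real.exp L⌋₊ + 1) y with h | h
    · left
      rw [hy', max_eq_left h]
    · right
      rw [hy', max_eq_right h]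
      push_cast
      have := Nat.floor_le hexp0
      linarith
  have hend : (y' : ℝ) + 2 * Real.exp L ≤ y + x := by
    rcases hcases with h | h
    · rw [h, hexpL]
      linarith
    · rw [hexpL] at h ⊢
      linarith
  obtain ⟨A, hA⟩ : ∃ A : ℕ, A = ⌈Real.log y / L⌉₊ + 3 := ⟨_, rfl⟩
  have hA1 : (A : ℝ) ≤ 2 * u + 4 := by
    rw [hA]
    push_cast
    have h1 := Nat.ceil_lt_add_one (show 0 ≤ Real.log y / L by positivity)
    have h2 : Real.log y / L ≤ 2 * u := by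
      rw [div_le_iff₀ hL0, hu]
      have h3 : Real.log y = Real.log y / ℓ * ℓ := by field_simp
      have h4 : Real.log y / ℓ * ℓ ≤ Real.log y / ℓ * (2 * L) :=
        mul_le_mul_of_nonneg_left (by linarith) (by positivity)
      linarith
    linarith
  have hA2 : Real.log y' + L ≤ A * L := by
    have h1 : Real.log y / L ≤ (⌈Real.log y / L⌉₊ : ℝ) := Nat.le_ceil _
    have h2 : Real.log y ≤ (⌈Real.log y / L⌉₊ : ℝ) * L := by
      rw [div_le_iff₀ hL0] at h1
      exact h1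
    have h3 : Real.log y' ≤ Real.log y + 2 * L := by
      rcases hcases with h | h
      · rw [h]
        linarith
      · have h4 : (y' : ℝ) ≤ Real.exp (2 * L) := by
          have e1 : Real.exp (2 * L) = Real.exp L * Real.exp L := by
            rw [← Real.exp_add]
            congr 1
            ring
          have e2 : 2 ≤ Real.exp L := by
            have := Real.add_one_le_exp L
            linarith
          have e3 : 2 * Real.exp L ≤ Real.exp L * Real.exp L :=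
            mul_le_mul_of_nonneg_right e2 hexp0
          linarith
        have h5 : Real.log y' ≤ 2 * L := by
          rw [Real.log_le_iff_le_exp (hexp0.trans_lt hLy')]
          exact h4
        linarith
    rw [hA]
    push_cast
    nlinarith
  have hκA : κ * A ≤ Real.log L := by
    have h1 : κ * A ≤ κ * (2 * u + 4) := mul_le_mul_of_nonneg_left hA1 (by linarith)
    linarith
  have hκt : κ * (2 * t * H) ≤ Real.log L := by
    have h1 : κ * (2 * t * H) = 2 * (κ * s) := by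
      rw [hs]
      ring
    linarith
  have hV : t * ℓ + 1 / 2 ≤ 2 * t * L := by
    have h1 : ℓ + 1 / 2 ≤ 2 * L := by linarith
    have h2 : t * (ℓ + 1 / 2) ≤ t * (2 * L) := mul_le_mul_of_nonneg_left h1 (by linarith)
    linarith
  have hmain := hth L hLL A H (2 * t) (by linarith) hH hκA hκt a ha y' hLy' (hy.trans hyy') hA2
    (t * ℓ + 1 / 2) hV
  have hsub : gm a H y' ⌊(y' : ℝ) + 2 * Real.exp L⌋₊ (t * ℓ + 1 / 2) ⊆
      (Finset.Icc y (y + x)).filter (fun n : ℕ => ∀ h : ℤ, h ≠ 0 → |h| ≤ H →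
        IsCoprime (h * a) (n : ℤ) ∧ ∀ q : ℕ, q.Prime → (q : ℤ) ≡ h * a [ZMOD n] →
          (q : ℤ) ≠ h * a → t * (n * ℓ) < q) := by
    intro n hn
    rw [gm, mem_filter, mem_Icc] at hn
    obtain ⟨⟨hn1, hn2⟩, hn3⟩ := hn
    rw [mem_filter, mem_Icc]
    have hn4 : (n : ℝ) ≤ (y : ℝ) + x := by
      have h1 : (n : ℝ) ≤ (y' : ℝ) + 2 * Real.exp L :=
        (Nat.le_floor_iff (by positivity)).1 hn2
      linarith
    have hyn : y ≤ n := hyy'.trans hn1
    have hn0 : (0 : ℝ) < n := by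
      have : (y : ℝ) ≤ n := by exact_mod_cast hyn
      linarith
    refine ⟨⟨hyn, by exact_mod_cast hn4⟩, fun h hh hhH => ⟨(hn3 h hh hhH).1, ?_⟩⟩
    intro q hq hmod hne
    by_contra hcon
    rw [not_lt] at hcon
    obtain ⟨k, hk⟩ := (Int.modEq_iff_dvd.1 hmod.symm)
    have hk0 : k ≠ 0 := by
      rintro rfl
      apply hne
      rw [mul_zero] at hk
      linarith
    have hqk : (q : ℤ) = h * a + k * n := by
      linarith
    refine (hn3 h hh hhH).2 k hk0 ?_ q hq hqk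
    have h1 : (k : ℝ) * n = q - h * a := by
      have : ((q : ℤ) : ℝ) = ((h * a + k * n : ℤ) : ℝ) := by rw [hqk]
      push_cast at this
      linarith
    have h2 : |(h : ℝ) * a| ≤ n / 2 := by
      rw [abs_mul]
      have e1 : |(h : ℝ)| ≤ H := by exact_mod_cast hhH
      have e2 : |(a : ℝ)| = a.natAbs := by
        rw [Nat.cast_natAbs, Int.cast_abs]
      have e3 : (2 : ℝ) * H * a.natAbs ≤ n := by exact_mod_cast hy.trans hyn
      have e4 : |(h : ℝ)| * |(a : ℝ)| ≤ H * |(a : ℝ)| :=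
        mul_le_mul_of_nonneg_right e1 (abs_nonneg _)
      rw [e2] at e4 ⊢
      linarith
    have h3 : |(k : ℝ)| * n ≤ (t * ℓ + 1 / 2) * n := by
      rw [← abs_of_pos hn0, ← abs_mul, h1, abs_of_pos hn0]
      have e1 := abs_sub (q : ℝ) (h * a)
      have e2 : |(q : ℝ)| = q := abs_of_nonneg (Nat.cast_nonneg q)
      rw [e2] at e1
      linarith
    exact le_of_mul_le_mul_right h3 hn0
  have hcard : ((gm a H y' ⌊(y' : ℝ) + 2 * Real.exp L⌋₊ (t * ℓ + 1 / 2)).card : ℝ) ≤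
      (((Finset.Icc y (y + x)).filter (fun n : ℕ => ∀ h : ℤ, h ≠ 0 → |h| ≤ H →
        IsCoprime (h * a) (n : ℤ) ∧ ∀ q : ℕ, q.Prime → (q : ℤ) ≡ h * a [ZMOD n] →
          (q : ℤ) ≠ h * a → t * (n * ℓ) < q)).card : ℝ) := by
    exact_mod_cast Finset.card_le_card hsub
  refine le_trans ?_ (hmain.trans hcard)
  have hfin := fin_exp (A := (A : ℝ)) (κ := κ) (u := u) (s := s) (by linarith) hu0 hs1 hA1
  have hρ : 0 ≤ (a.natAbs.totient : ℝ) / a.natAbs := by positivity
  have h2ts : 2 * t * H = 2 * s := by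
    rw [hs]
    ring
  rw [h2ts, hexpL]
  calc Real.exp (-((1 + u) * Real.exp ((2 * κ + 6) * s))) *
        ((a.natAbs.totient : ℝ) / a.natAbs * x)
      = (2 * Real.exp (-((1 + u) * Real.exp ((2 * κ + 6) * s)))) *
        ((a.natAbs.totient : ℝ) / a.natAbs * (2 * (x / 4))) := by ring
    _ ≤ _ := mul_le_mul_of_nonneg_right hfin (by positivity)

end Pool.Agent.FXD
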